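import Mathlib
import Pool.Agent.W189.TP.Fin
import Pool.Agent.TH949.RES.Gam

/-! Reflection: exact size of an `L`-function to the left of the critical strip. -/

set_option autoImplicit false

namespace Pool.Agent.TH949.LT

open Filter Topology Complex

theorem gr_step {z : ℂ} (hz : z ≠ 0) : Gammaℝ (z + 2) = Gammaℝ z * (z / (2 * Real.pi)) := by
  rw [Gammaℝ_add_two hz]
  have : (Real.pi : ℂ) ≠ 0 := by exact_mod_cast Real.pi_pos.ne'
  field_simp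

theorem gr_two {z : ℂ} (hz : -4 < z.re) :
    Gammaℝ (z + 4) * (Gammaℝ z)⁻¹ = (z / (2 * Real.pi)) * ((z + 2) / (2 * Real.pi)) := by
  by_cases h0 : z = 0
  · have : Gammaℝ z = 0 := Gammaℝ_eq_zero_iff.2 ⟨0, by simp [h0]⟩
    rw [this, h0]
    simp
  by_cases h2 : z + 2 = 0
  · have : Gammaℝ z = 0 := Gammaℝ_eq_zero_iff.2 ⟨1, by
      rw [eq_neg_of_add_eq_zero_left h2]
      norm_num⟩
    rw [this, h2]
    simp
  have hne : Gammaℝ z ≠ 0 := by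
    intro h
    obtain ⟨n, hn⟩ := Gammaℝ_eq_zero_iff.1 h
    have hn2 : z.re = -(2 * n) := by
      rw [hn]
      simp
    have hn3 : (n : ℝ) < 2 := by linarith
    have hn4 : n < 2 := by exact_mod_cast hn3
    interval_cases n
    · exact h0 (by rw [hn]; simp)
    · exact h2 (by rw [hn]; norm_num)
  have e : z + 4 = z + 2 + 2 := by ring
  rw [e, gr_step h2, gr_step h0]
  field_simp

theorem gr_three {z : ℂ} (hz : -6 < z.re) :
    Gammaℝ (z + 6) * (Gammaℝ z)⁻¹ =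
      (z / (2 * Real.pi)) * ((z + 2) / (2 * Real.pi)) * ((z + 4) / (2 * Real.pi)) := by
  by_cases h0 : z = 0
  · have : Gammaℝ z = 0 := Gammaℝ_eq_zero_iff.2 ⟨0, by simp [h0]⟩
    rw [this, h0]
    simp
  by_cases h2 : z + 2 = 0
  · have : Gammaℝ z = 0 := Gammaℝ_eq_zero_iff.2 ⟨1, by
      rw [eq_neg_of_add_eq_zero_left h2]
      norm_num⟩
    rw [this, h2]
    simp
  by_cases h4 : z + 4 = 0
  · have : Gammaℝ z = 0 := Gammaℝ_eq_zero_iff.2 ⟨2, by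
      rw [eq_neg_of_add_eq_zero_left h4]
      norm_num⟩
    rw [this, h4]
    simp
  have hne : Gammaℝ z ≠ 0 := by
    intro h
    obtain ⟨n, hn⟩ := Gammaℝ_eq_zero_iff.1 h
    have hn2 : z.re = -(2 * n) := by
      rw [hn]
      simp
    have hn3 : (n : ℝ) < 3 := by linarith
    have hn4 : n < 3 := by exact_mod_cast hn3
    interval_cases n
    · exact h0 (by rw [hn]; simp)
    · exact h2 (by rw [hn]; norm_num)
    · exact h4 (by rw [hn]; norm_num)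
  have e : z + 6 = z + 2 + 2 + 2 := by ring
  have h4' : z + 2 + 2 ≠ 0 := by
    intro h
    exact h4 (by rw [← h]; ring)
  rw [e, gr_step h4', gr_step h2, gr_step h0]
  field_simp
  ring

/-- an entire function with a functional equation with `N` Gamma factors -/
structure LData (N : ℕ) (κ : Fin N → ℂ) (Q : ℝ) (F : ℂ → ℂ) : Prop where
  one_le : 1 ≤ Q
  conj : Multiset.map (fun j => (starRingEnd ℂ) (κ j)) Finset.univ.val =
      Multiset.map κ Finset.univ.val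
  re : ∀ j, -1 < (κ j).re
  hF : Differentiable ℂ F
  growth : ∀ a b : ℝ, ∃ (C : ℝ) (A : ℕ), ∀ s : ℂ, a ≤ s.re → s.re ≤ b → ‖F s‖ ≤ C * (1 + |s.im|) ^ A
  fe : ∃ (Ξ : ℂ → ℂ) (ω : ℂ), ‖ω‖ = 1 ∧ Differentiable ℂ Ξ ∧
    (∀ s : ℂ, 2 < s.re → Ξ s = F s * ((Q : ℂ) ^ s * ∏ j, Gammaℝ (s + κ j))) ∧
    ∀ s : ℂ, Ξ (1 - s) = ω * Ξ s

variable {N : ℕ} {κ : Fin N → ℂ} {Q : ℝ} {F : ℂ → ℂ}

theorem norm_refl (h : LData N κ Q F) {s : ℂ} (hs : s.re < -1) :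
    ‖F s‖ = Q ^ (1 - 2 * s.re) * ‖F (1 - s)‖ *
      ∏ j, ‖Gammaℝ (s + κ j + ((1 - 2 * s.re : ℝ) : ℂ)) * (Gammaℝ (s + κ j))⁻¹‖ := by
  obtain ⟨Ξ, ω, hω, hΞ, h1, h2⟩ := h.fe
  have hQ : 0 < Q := by linarith [h.one_le]
  have hQc : (Q : ℂ) ≠ 0 := by exact_mod_cast hQ.ne'
  -- the identity everywhere
  have key : ∀ s : ℂ, F s = Ξ s * ((Q : ℂ) ^ (-s) * ∏ j, (Gammaℝ (s + κ j))⁻¹) := by
    set G : ℂ → ℂ := fun s => Ξ s * ((Q : ℂ) ^ (-s) * ∏ j, (Gammaℝ (s + κ j))⁻¹) with hG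
    have hGd : Differentiable ℂ G := by
      refine hΞ.mul (Differentiable.mul ?_ ?_)
      · intro s
        exact (differentiableAt_id.neg).const_cpow (Or.inl hQc)
      · refine Differentiable.fun_finsetProd fun j _ => ?_
        exact differentiable_Gammaℝ_inv.comp (by fun_prop)
    have hev : F =ᶠ[𝓝 (3 : ℂ)] G := by
      have hopen : IsOpen {s : ℂ | 2 < s.re} := isOpen_lt continuous_const Complex.continuous_re
      filter_upwards [hopen.mem_nhds (show (3 : ℂ) ∈ {s : ℂ | 2 < s.re} by simp; norm_num)] with s hs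
      have hs' : 2 < s.re := hs
      simp only [hG]
      rw [h1 s hs', Finset.prod_inv_distrib, Complex.cpow_neg]
      have hp : ∏ j, Gammaℝ (s + κ j) ≠ 0 := by
        refine Finset.prod_ne_zero_iff.2 fun j _ => Gammaℝ_ne_zero_of_re_pos ?_
        have := h.re j
        rw [Complex.add_re]
        linarith
      have hq : (Q : ℂ) ^ s ≠ 0 := by
        rw [Complex.cpow_ne_zero_iff]
        exact Or.inl hQc
      field_simp
    have hFa : AnalyticOnNhd ℂ F Set.univ := h.hF.differentiableOn.analyticOnNhd isOpen_univ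
    have hGa : AnalyticOnNhd ℂ G Set.univ := hGd.differentiableOn.analyticOnNhd isOpen_univ
    have := hFa.eq_of_eventuallyEq hGa hev
    intro s
    exact congrFun this s
  have hc : ∏ j, ‖Gammaℝ (1 - s + κ j)‖ = ∏ j, ‖Gammaℝ (s + κ j + ((1 - 2 * s.re : ℝ) : ℂ))‖ := by
    rw [Pool.Agent.W189.TP.conj_prod h.conj (fun z => ‖Gammaℝ (1 - s + z)‖)]
    refine Finset.prod_congr rfl fun j _ => ?_
    rw [← Pool.Agent.W189.TP.norm_Gammaℝ_conj]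
    congr 2
    apply Complex.ext
    · simp
      ring
    · simp
  have e1 : ‖Ξ s‖ = ‖F (1 - s)‖ * (Q ^ (1 - s.re) * ∏ j, ‖Gammaℝ (1 - s + κ j)‖) := by
    have h3 := congrArg norm (h2 s)
    rw [norm_mul, hω, one_mul] at h3
    rw [← h3, h1 (1 - s) (by simp; linarith), norm_mul, norm_mul, norm_prod,
      Complex.norm_cpow_eq_rpow_re_of_pos hQ]
    simp
  rw [key s, norm_mul, norm_mul, e1, norm_prod, Complex.norm_cpow_eq_rpow_re_of_pos hQ, hc]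
  have e2 : Q ^ (1 - 2 * s.re) = Q ^ (1 - s.re) * Q ^ (-s).re := by
    rw [← Real.rpow_add hQ]
    congr 1
    simp
    ring
  rw [e2]
  simp_rw [norm_mul]
  rw [Finset.prod_mul_distrib]
  ring

/-- the polynomial factor at `Re s = -3/2` -/
noncomputable def p2 (κ : Fin N → ℂ) (t : ℝ) : ℝ :=
  ∏ j, (‖κ j + ((-3 / 2 : ℝ) : ℂ) + t * I‖ * ‖κ j + ((1 / 2 : ℝ) : ℂ) + t * I‖)

/-- the polynomial factor at `Re s = -5/2` -/
noncomputable def p3 (κ : Fin N → ℂ) (t : ℝ) : ℝ :=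
  ∏ j, (‖κ j + ((-5 / 2 : ℝ) : ℂ) + t * I‖ * ‖κ j + ((-1 / 2 : ℝ) : ℂ) + t * I‖ *
    ‖κ j + ((3 / 2 : ℝ) : ℂ) + t * I‖)

theorem norm_F2 (h : LData N κ Q F) (t : ℝ) :
    ‖F (((-3 / 2 : ℝ) : ℂ) + t * I)‖ =
      Q ^ (4 : ℕ) * (((2 * Real.pi) ^ 2) ^ N)⁻¹ * p2 κ t * ‖F (((5 / 2 : ℝ) : ℂ) - t * I)‖ := by
  rw [norm_refl h (by simp; norm_num)]
  have e1 : (1 : ℝ) - 2 * (((-3 / 2 : ℝ) : ℂ) + t * I).re = 4 := by simp; norm_num
  have e2 : (1 : ℂ) - (((-3 / 2 : ℝ) : ℂ) + t * I) = ((5 / 2 : ℝ) : ℂ) - t * I := by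
    push_cast
    ring
  rw [e1, e2]
  have e3 : ∀ j, ‖Gammaℝ (((-3 / 2 : ℝ) : ℂ) + t * I + κ j + ((4 : ℝ) : ℂ)) *
      (Gammaℝ (((-3 / 2 : ℝ) : ℂ) + t * I + κ j))⁻¹‖ =
      ((2 * Real.pi) ^ 2)⁻¹ *
        (‖κ j + ((-3 / 2 : ℝ) : ℂ) + t * I‖ * ‖κ j + ((1 / 2 : ℝ) : ℂ) + t * I‖) := by
    intro j
    have h4 : ((4 : ℝ) : ℂ) = 4 := by norm_num
    rw [h4, gr_two (by
      have := h.re j
      simp
      linarith), norm_mul, norm_div, norm_div]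
    have h5 : ‖(2 * Real.pi : ℂ)‖ = 2 * Real.pi := by
      rw [norm_mul, Complex.norm_real, Real.norm_of_nonneg Real.pi_pos.le]
      simp
    rw [h5]
    have h6 : ((-3 / 2 : ℝ) : ℂ) + t * I + κ j = κ j + ((-3 / 2 : ℝ) : ℂ) + t * I := by ring
    have h7 : ((-3 / 2 : ℝ) : ℂ) + t * I + κ j + 2 = κ j + ((1 / 2 : ℝ) : ℂ) + t * I := by
      push_cast
      ring
    rw [h7, h6]
    have := Real.pi_pos
    field_simp
  simp_rw [e3]
  rw [Finset.prod_mul_distrib]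
  have e4 : ∏ _j : Fin N, ((2 * Real.pi) ^ 2)⁻¹ = (((2 * Real.pi) ^ 2) ^ N)⁻¹ := by
    rw [Finset.prod_const, Finset.card_univ, Fintype.card_fin, inv_pow]
  rw [e4]
  unfold p2
  have e5 : Q ^ (4 : ℝ) = Q ^ (4 : ℕ) := by
    rw [← Real.rpow_natCast]
    norm_num
  rw [e5]
  ring

theorem norm_F3 (h : LData N κ Q F) (t : ℝ) :
    ‖F (((-5 / 2 : ℝ) : ℂ) + t * I)‖ =
      Q ^ (6 : ℕ) * (((2 * Real.pi) ^ 3) ^ N)⁻¹ * p3 κ t * ‖F (((7 / 2 : ℝ) : ℂ) - t * I)‖ := by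
  rw [norm_refl h (by simp; norm_num)]
  have e1 : (1 : ℝ) - 2 * (((-5 / 2 : ℝ) : ℂ) + t * I).re = 6 := by simp; norm_num
  have e2 : (1 : ℂ) - (((-5 / 2 : ℝ) : ℂ) + t * I) = ((7 / 2 : ℝ) : ℂ) - t * I := by
    push_cast
    ring
  rw [e1, e2]
  have e3 : ∀ j, ‖Gammaℝ (((-5 / 2 : ℝ) : ℂ) + t * I + κ j + ((6 : ℝ) : ℂ)) *
      (Gammaℝ (((-5 / 2 : ℝ) : ℂ) + t * I + κ j))⁻¹‖ =
      ((2 * Real.pi) ^ 3)⁻¹ *
        (‖κ j + ((-5 / 2 : ℝ) : ℂ) + t * I‖ * ‖κ j + ((-1 / 2 : ℝ) : ℂ) + t * I‖ *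
          ‖κ j + ((3 / 2 : ℝ) : ℂ) + t * I‖) := by
    intro j
    have h4 : ((6 : ℝ) : ℂ) = 6 := by norm_num
    rw [h4, gr_three (by
      have := h.re j
      simp
      linarith), norm_mul, norm_mul, norm_div, norm_div, norm_div]
    have h5 : ‖(2 * Real.pi : ℂ)‖ = 2 * Real.pi := by
      rw [norm_mul, Complex.norm_real, Real.norm_of_nonneg Real.pi_pos.le]
      simp
    rw [h5]
    have h6 : ((-5 / 2 : ℝ) : ℂ) + t * I + κ j = κ j + ((-5 / 2 : ℝ) : ℂ) + t * I := by ring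
    have h7 : ((-5 / 2 : ℝ) : ℂ) + t * I + κ j + 2 = κ j + ((-1 / 2 : ℝ) : ℂ) + t * I := by
      push_cast
      ring
    have h8 : ((-5 / 2 : ℝ) : ℂ) + t * I + κ j + 4 = κ j + ((3 / 2 : ℝ) : ℂ) + t * I := by
      push_cast
      ring
    rw [h7, h8, h6]
    have := Real.pi_pos
    field_simp
  simp_rw [e3]
  rw [Finset.prod_mul_distrib]
  have e4 : ∏ _j : Fin N, ((2 * Real.pi) ^ 3)⁻¹ = (((2 * Real.pi) ^ 3) ^ N)⁻¹ := by
    rw [Finset.prod_const, Finset.card_univ, Fintype.card_fin, inv_pow]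
  rw [e4]
  unfold p3
  have e5 : Q ^ (6 : ℝ) = Q ^ (6 : ℕ) := by
    rw [← Real.rpow_natCast]
    norm_num
  rw [e5]
  ring

end Pool.Agent.TH949.LT
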