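import Mathlib
import Pool.Agent.W189.TP.Land

/-! The exponential of an absolutely convergent Dirichlet series as a Dirichlet series. -/

set_option autoImplicit false

namespace Pool.Agent.TH949.LT

open Filter Topology Complex
open Pool.Agent.W189.TP (DS norm_term)

/-- first coordinate and the rest -/
def ce (X : Type*) (k : ℕ) : X × (Fin k → X) ≃ (Fin (k + 1) → X) := Fin.consEquiv fun _ => X

theorem ce_prod {X R : Type*} [CommMonoid R] (f : X → R) {k : ℕ} (p : X × (Fin k → X)) :
    ∏ i, f (ce X k p i) = f p.1 * ∏ i, f (p.2 i) := by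
  rw [Fin.prod_univ_succ]
  simp [ce, Fin.consEquiv]

theorem pow_fin {X R : Type*} [NormedField R] [CompleteSpace R] {f : X → R} (hf : Summable fun x => ‖f x‖)
    (k : ℕ) : (Summable fun x : Fin k → X => ‖∏ i, f (x i)‖) ∧
      HasSum (fun x : Fin k → X => ∏ i, f (x i)) ((∑' x, f x) ^ k) := by
  induction k with
  | zero =>
    constructor
    · exact (hasSum_unique _).summable
    · simp
  | succ k ih =>
    have h1 : Summable fun p : X × (Fin k → X) => ‖f p.1 * ∏ i, f (p.2 i)‖ :=
      Summable.mul_norm (f := f) (g := fun x : Fin k → X => ∏ i, f (x i)) hf ih.1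
    constructor
    · refine ((ce X k).summable_iff (f := fun x : Fin (k + 1) → X => ‖∏ i, f (x i)‖)).1 ?_
      refine h1.congr fun p => ?_
      change ‖f p.1 * ∏ i, f (p.2 i)‖ = ‖∏ i, f (ce X k p i)‖
      rw [ce_prod]
    · refine ((ce X k).hasSum_iff (f := fun x : Fin (k + 1) → X => ∏ i, f (x i))).1 ?_
      rw [pow_succ']
      have h2 := HasSum.mul (f := f) (g := fun x : Fin k → X => ∏ i, f (x i)) hf.of_norm.hasSum ih.2 h1.of_norm
      refine h2.congr_fun fun p => ?_
      change ∏ i, f (ce X k p i) = f p.1 * ∏ i, f (p.2 i)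
      rw [ce_prod]

/-- multi-indices -/
abbrev TT (X : Type*) := Σ k : ℕ, (Fin k → X)

theorem real_exp_sum {X : Type*} {f : X → ℝ} (hf : Summable f) (h0 : ∀ x, 0 ≤ f x) :
    HasSum (fun l : TT X => (∏ i, f (l.2 i)) / (l.1.factorial : ℝ)) (Real.exp (∑' x, f x)) := by
  have hf' : Summable fun x => ‖f x‖ := hf.norm
  have h1 : ∀ k : ℕ, HasSum (fun x : Fin k → X => (∏ i, f (x i)) / (k.factorial : ℝ))
      ((∑' x, f x) ^ k / (k.factorial : ℝ)) := fun k => (pow_fin hf' k).2.div_const _
  have h2 : HasSum (fun k : ℕ => (∑' x, f x) ^ k / (k.factorial : ℝ)) (Real.exp (∑' x, f x)) := by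
    rw [Real.exp_eq_exp_ℝ]
    exact NormedSpace.expSeries_div_hasSum_exp _
  have h3 : Summable (fun l : TT X => (∏ i, f (l.2 i)) / (l.1.factorial : ℝ)) := by
    rw [summable_sigma_of_nonneg (fun l => by
      have : 0 ≤ ∏ i, f (l.2 i) := Finset.prod_nonneg fun i _ => h0 _
      positivity)]
    refine ⟨fun k => (h1 k).summable, ?_⟩
    refine h2.summable.congr fun k => ?_
    exact (h1 k).tsum_eq.symm
  have h4 := h3.hasSum.sigma h1
  rw [h2.unique h4]
  exact h3.hasSum

theorem complex_exp_sum {X : Type*} {f : X → ℂ} (hf : Summable fun x => ‖f x‖) :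
    HasSum (fun l : TT X => (∏ i, f (l.2 i)) / (l.1.factorial : ℂ)) (cexp (∑' x, f x)) := by
  have h1 : ∀ k : ℕ, HasSum (fun x : Fin k → X => (∏ i, f (x i)) / (k.factorial : ℂ))
      ((∑' x, f x) ^ k / (k.factorial : ℂ)) := fun k => (pow_fin hf k).2.div_const _
  have h2 : HasSum (fun k : ℕ => (∑' x, f x) ^ k / (k.factorial : ℂ)) (cexp (∑' x, f x)) := by
    rw [Complex.exp_eq_exp_ℂ]
    exact NormedSpace.expSeries_div_hasSum_exp _
  have h3 : Summable (fun l : TT X => (∏ i, f (l.2 i)) / (l.1.factorial : ℂ)) := by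
    refine Summable.of_norm ((real_exp_sum hf fun x => norm_nonneg _).summable.congr fun l => ?_)
    rw [norm_div, norm_prod, Complex.norm_natCast]
  have h4 := h3.hasSum.sigma h1
  rw [h2.unique h4]
  exact h3.hasSum

variable {X : Type*}

/-- coefficients -/
noncomputable def cc (d : X → ℝ) (l : TT X) : ℝ := (∏ i, d (l.2 i)) / (l.1.factorial : ℝ)

/-- frequencies -/
def Lam (L : X → ℝ) (l : TT X) : ℝ := ∑ i, L (l.2 i)

theorem cc_abs {d L : X → ℝ} {σ : ℝ} (hs : Summable fun i => |d i| * Real.exp (-(σ * L i))) :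
    HasSum (fun l : TT X => |cc d l| * Real.exp (-(σ * Lam L l)))
      (Real.exp (∑' i, |d i| * Real.exp (-(σ * L i)))) := by
  refine (real_exp_sum hs fun x => by positivity).congr_fun fun l => ?_
  unfold cc Lam
  rw [Finset.prod_mul_distrib, ← Real.exp_sum, Finset.sum_neg_distrib, ← Finset.mul_sum, abs_div,
    Finset.abs_prod, Nat.abs_cast]
  ring

theorem cc_sum {d L : X → ℝ} {s : ℂ} (hs : Summable fun i => |d i| * Real.exp (-(s.re * L i))) :
    HasSum (fun l : TT X => (cc d l : ℂ) * cexp (-(s * Lam L l))) (cexp (DS d L s)) := by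
  have h1 := complex_exp_sum (f := fun x => (d x : ℂ) * cexp (-(s * L x))) (hs.congr fun x => by
    rw [norm_term])
  refine h1.congr_fun fun l => ?_
  unfold cc Lam
  rw [Finset.prod_mul_distrib, ← Complex.exp_sum, Finset.sum_neg_distrib, ← Finset.mul_sum]
  push_cast
  ring

theorem cc_nonneg {d L : X → ℝ} (hL : ∀ x, 0 ≤ L x) {T : ℝ} (hd : ∀ x, L x ≤ T → 0 ≤ d x) {l : TT X}
    (hl : Lam L l ≤ T) : 0 ≤ cc d l := by
  unfold cc
  refine div_nonneg (Finset.prod_nonneg fun i _ => hd _ ?_) (Nat.cast_nonneg _)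
  refine le_trans ?_ hl
  unfold Lam
  exact Finset.single_le_sum (f := fun i => L (l.2 i)) (fun j _ => hL _) (Finset.mem_univ i)

end Pool.Agent.TH949.LT
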