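import Pool.Agent.TH949.LT.Smooth

/-! **The abstract theorem**: a Dirichlet series with a functional equation has a negative coefficient
of size at most a power `1 + ε` of its analytic conductor. -/

set_option autoImplicit false

namespace Pool.Agent.TH949.LT

open Filter Topology Complex MeasureTheory Set

variable {N : ℕ} {κ : Fin N → ℂ} {Q : ℝ} {F : ℂ → ℂ}

/-- a constant -/
noncomputable def JJ (N : ℕ) (Tm : ℝ) : ℝ :=
  ((3 * N).factorial : ℝ) * Real.exp (4 + Tm) * ∫ v : ℝ, Real.exp (-(1 / 2) * v ^ 2)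

theorem JJ_nonneg (N : ℕ) (Tm : ℝ) : 0 ≤ JJ N Tm := by
  unfold JJ
  have : 0 ≤ ∫ v : ℝ, Real.exp (-(1 / 2) * v ^ 2) := integral_nonneg fun v => (Real.exp_pos _).le
  positivity

theorem pow_exp (n : ℕ) {x : ℝ} (hx : 0 ≤ x) : x ^ n ≤ (n.factorial : ℝ) * Real.exp x := by
  have h := Real.pow_div_factorial_le_exp x hx n
  rwa [div_le_iff₀ (by positivity), mul_comm] at h

theorem left_int_bound (h : LData N κ Q F) {M : ℝ} (hM0 : 0 ≤ M)
    (hM : ∀ s : ℂ, 5 / 2 ≤ s.re → ‖F s‖ ≤ M) {y t Tm : ℝ} (ht : |t| ≤ Tm) :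
    ‖∫ v : ℝ, F (((-3 / 2 : ℝ) : ℂ) + t * I + ((-1 : ℝ) + v * I)) * cexp (((-1 : ℝ) + v * I) * y) *
      EE (-1) v‖ ≤ Real.exp (-y) * (Q ^ 6 * PK κ ^ 3 * M) * JJ N Tm := by
  have hQ : 0 < Q := by linarith [h.one_le]
  have hP := one_le_PK κ
  have hint : Integrable fun v : ℝ => Real.exp (-(1 / 2) * v ^ 2) := integrable_exp_neg_mul_sq (by norm_num)
  have h1 : ∀ v : ℝ, ‖F (((-3 / 2 : ℝ) : ℂ) + t * I + ((-1 : ℝ) + v * I)) *
      cexp (((-1 : ℝ) + v * I) * y) * EE (-1) v‖ ≤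
      Real.exp (-y) * (Q ^ 6 * PK κ ^ 3 * M) * (((3 * N).factorial : ℝ) * Real.exp (4 + Tm)) *
        Real.exp (-(1 / 2) * v ^ 2) := by
    intro v
    have e1 : ((-3 / 2 : ℝ) : ℂ) + t * I + ((-1 : ℝ) + v * I) =
        ((-5 / 2 : ℝ) : ℂ) + ((t + v : ℝ) : ℂ) * I := by
      push_cast
      ring
    have e2 : ‖cexp (((-1 : ℝ) + v * I) * y)‖ = Real.exp (-y) := by
      rw [Complex.norm_exp]
      simp
    have e3 : ‖EE (-1) v‖ ≤ Real.exp (1 - v ^ 2) := by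
      unfold EE
      rw [norm_div, norm_exp_sq]
      have h2 : (1 : ℝ) ≤ ‖((-1 : ℝ) : ℂ) + v * I‖ := by
        have := Complex.abs_re_le_norm (((-1 : ℝ) : ℂ) + v * I)
        simpa using this
      have h3 : ((((-1 : ℝ) : ℂ) + v * I).re ^ 2 - (((-1 : ℝ) : ℂ) + v * I).im ^ 2) = 1 - v ^ 2 := by
        simp
      rw [h3]
      exact div_le_self (Real.exp_pos _).le h2
    have e4 : ‖F (((-5 / 2 : ℝ) : ℂ) + ((t + v : ℝ) : ℂ) * I)‖ ≤
        Q ^ 6 * PK κ ^ 3 * M * (((3 * N).factorial : ℝ) * Real.exp (5 / 2 + Tm + |v|)) := by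
      rw [norm_F3 h]
      have h4 : (((2 * Real.pi) ^ 3) ^ N)⁻¹ ≤ 1 := by
        refine inv_le_one_of_one_le₀ (one_le_pow₀ (one_le_pow₀ ?_))
        linarith [Real.pi_gt_three]
      have h5 : p3 κ (t + v) ≤ PK κ ^ 3 * (((3 * N).factorial : ℝ) * Real.exp (5 / 2 + Tm + |v|)) := by
        refine (p3_le κ (t + v)).trans (mul_le_mul_of_nonneg_left ?_ (by positivity))
        refine (pow_exp (3 * N) (by positivity)).trans
          (mul_le_mul_of_nonneg_left (Real.exp_le_exp.2 ?_) (by positivity))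
        have := abs_add_le t v
        linarith
      have h6 := hM (((7 / 2 : ℝ) : ℂ) - ((t + v : ℝ) : ℂ) * I) (by simp; norm_num)
      have h7 := p3_nonneg κ (t + v)
      calc Q ^ 6 * (((2 * Real.pi) ^ 3) ^ N)⁻¹ * p3 κ (t + v) *
            ‖F (((7 / 2 : ℝ) : ℂ) - ((t + v : ℝ) : ℂ) * I)‖
          ≤ Q ^ 6 * 1 * (PK κ ^ 3 * (((3 * N).factorial : ℝ) * Real.exp (5 / 2 + Tm + |v|))) * M := by
            gcongr
        _ = _ := by ring
    rw [e1, norm_mul, norm_mul, e2]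
    have e5 : Real.exp (5 / 2 + Tm + |v|) * Real.exp (1 - v ^ 2) ≤
        Real.exp (4 + Tm) * Real.exp (-(1 / 2) * v ^ 2) := by
      rw [← Real.exp_add, ← Real.exp_add]
      refine Real.exp_le_exp.2 ?_
      have := sq_abs v
      nlinarith [sq_nonneg (|v| - 1)]
    calc _ ≤ (Q ^ 6 * PK κ ^ 3 * M * (((3 * N).factorial : ℝ) * Real.exp (5 / 2 + Tm + |v|))) *
          Real.exp (-y) * Real.exp (1 - v ^ 2) := by gcongr
      _ = Real.exp (-y) * (Q ^ 6 * PK κ ^ 3 * M) * ((3 * N).factorial : ℝ) *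
          (Real.exp (5 / 2 + Tm + |v|) * Real.exp (1 - v ^ 2)) := by ring
      _ ≤ Real.exp (-y) * (Q ^ 6 * PK κ ^ 3 * M) * ((3 * N).factorial : ℝ) *
          (Real.exp (4 + Tm) * Real.exp (-(1 / 2) * v ^ 2)) :=
          mul_le_mul_of_nonneg_left e5 (by positivity)
      _ = _ := by ring
  refine (norm_integral_le_of_norm_le (hint.const_mul _) (Eventually.of_forall h1)).trans (le_of_eq ?_)
  rw [integral_const_mul]
  unfold JJ
  ring

theorem crossing (h : LData N κ Q F) (y t : ℝ) :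
    (∫ v : ℝ, F (((-3 / 2 : ℝ) : ℂ) + t * I + ((4 : ℝ) + v * I)) * cexp (((4 : ℝ) + v * I) * y) *
        EE 4 v) -
      (∫ v : ℝ, F (((-3 / 2 : ℝ) : ℂ) + t * I + ((-1 : ℝ) + v * I)) *
        cexp (((-1 : ℝ) + v * I) * y) * EE (-1) v) =
      2 * Real.pi * F (((-3 / 2 : ℝ) : ℂ) + t * I) := by
  set s0 : ℂ := ((-3 / 2 : ℝ) : ℂ) + t * I with hs0
  obtain ⟨C, A, hCA⟩ := h.growth (-5 / 2) (5 / 2)
  have hH : Differentiable ℂ fun w : ℂ => F (s0 + w) * cexp (w * y) :=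
    (h.hF.comp (by fun_prop)).mul (by fun_prop)
  have h1 := cross hH (C := |C| * ((A.factorial : ℝ) * Real.exp (1 + |t|)) * Real.exp (4 * |y|)) (by
    intro w hw1 hw2
    rw [norm_mul]
    have h2 := hCA (s0 + w) (by simp [hs0]; linarith) (by simp [hs0]; linarith)
    have h3 : ‖cexp (w * y)‖ ≤ Real.exp (4 * |y|) := by
      rw [Complex.norm_exp]
      refine Real.exp_le_exp.2 ?_
      simp only [Complex.mul_re, Complex.ofReal_re, Complex.ofReal_im, mul_zero, sub_zero]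
      calc w.re * y ≤ |w.re * y| := le_abs_self _
        _ = |w.re| * |y| := abs_mul _ _
        _ ≤ 4 * |y| := by
            refine mul_le_mul_of_nonneg_right ?_ (abs_nonneg y)
            rw [abs_le]
            constructor <;> linarith
    have h4 : (1 + |(s0 + w).im|) ^ A ≤ (A.factorial : ℝ) * Real.exp (1 + |t|) * Real.exp |w.im| := by
      refine (pow_exp A (by positivity)).trans ?_
      rw [mul_assoc, ← Real.exp_add]
      refine mul_le_mul_of_nonneg_left (Real.exp_le_exp.2 ?_) (by positivity)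
      have e : (s0 + w).im = t + w.im := by simp [hs0]
      rw [e]
      have := abs_add_le t w.im
      linarith
    calc ‖F (s0 + w)‖ * ‖cexp (w * y)‖ ≤
          (|C| * ((A.factorial : ℝ) * Real.exp (1 + |t|) * Real.exp |w.im|)) * Real.exp (4 * |y|) := by
          refine mul_le_mul (h2.trans ?_) h3 (norm_nonneg _) (by positivity)
          exact mul_le_mul (le_abs_self C) h4 (by positivity) (abs_nonneg C)
      _ = _ := by ring)
  simp only [zero_mul, Complex.exp_zero, add_zero, mul_one] at h1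
  exact h1

/-- **Theorem.** -/
theorem negative_coefficient.{u} (N : ℕ) {M ε : ℝ} (hM : 1 ≤ M) (hε : 0 < ε) :
    ∃ A : ℝ, 0 < A ∧ ∀ (ι : Type u) [Countable ι] (c Λ : ι → ℝ) (κ : Fin N → ℂ) (Q : ℝ) (F : ℂ → ℂ),
      LData N κ Q F → (∃ j, κ j = 0) → (∀ l, 0 ≤ Λ l) →
      (Summable fun l => |c l| * Real.exp (-(5 / 2 * Λ l))) →
      (∑' l, |c l| * Real.exp (-(5 / 2 * Λ l)) ≤ M) →
      (∀ s : ℂ, 5 / 2 ≤ s.re → HasSum (fun l => (c l : ℂ) * cexp (-(s * Λ l))) (F s)) →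
      (∀ s : ℂ, s.re = 5 / 2 → 1 / M ≤ ‖F s‖) →
      ∃ l, c l < 0 ∧ Real.exp (Λ l) ≤ A * (Q ^ 2 * PK κ) ^ (1 + ε) := by
  set T0 : ℝ := 16 + 2 * M * (16 / 9) ^ N with hT0
  set Tm : ℝ := T0 * 16 ^ N with hTm
  set J : ℝ := JJ N Tm with hJ
  have hJ0 : 0 ≤ J := JJ_nonneg N Tm
  have hpi := Real.pi_pos
  set p : ℝ := (((2 * Real.pi) ^ 2) ^ N)⁻¹ with hp
  have hp0 : 0 < p := by rw [hp]; positivity
  set a0 : ℝ := p * ((16 : ℝ) ^ N)⁻¹ / (2 * M) with ha0
  have hM0 : 0 < M := by linarith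
  have ha00 : 0 < a0 := by rw [ha0]; positivity
  set A2 : ℝ := 8 * M * J / a0 + 1 with hA2
  have hA20 : 1 ≤ A2 := by
    have : 0 ≤ 8 * M * J / a0 := by positivity
    linarith
  set c0 : ℝ := 4 + 4 / ε with hc0
  have hc04 : 4 ≤ c0 := by
    have : 0 < 4 / ε := by positivity
    linarith
  set A3 : ℝ := 8 * M * Real.exp (c0 ^ 2) / a0 + 1 with hA3
  have hA30 : 1 ≤ A3 := by
    have : 0 ≤ 8 * M * Real.exp (c0 ^ 2) / a0 := by positivity
    linarith
  refine ⟨(A2 * A3) ^ (1 + ε), by positivity, ?_⟩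
  intro ι _ c Λ κ Q F h hκ0 hΛ hs hsM hF hlow
  obtain ⟨j0, hj0⟩ := hκ0
  by_contra hcon
  push Not at hcon
  have hQ := h.one_le
  have hQ0 : 0 < Q := by linarith
  have hP := one_le_PK κ
  set C : ℝ := Q ^ 2 * PK κ with hC
  have hC1 : 1 ≤ C := by
    rw [hC]
    nlinarith [one_le_pow₀ (n := 2) hQ]
  set y : ℝ := Real.log (A2 * C) with hy
  have hAC : 0 < A2 * C := by positivity
  set T : ℝ := (1 + ε) * Real.log (A3 * (A2 * C)) with hT
  have hAAC : 0 < A3 * (A2 * C) := by positivity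
  have hpos : ∀ l, Λ l ≤ T → 0 ≤ c l := by
    intro l hl
    by_contra hneg
    push Not at hneg
    have h1 := hcon l hneg
    have h2 : (A2 * A3) ^ (1 + ε) * C ^ (1 + ε) = Real.exp T := by
      rw [← Real.mul_rpow (by positivity) (by positivity), hT,
        Real.rpow_def_of_pos (by positivity)]
      congr 1
      rw [mul_comm]
      congr 2
      ring
    rw [h2] at h1
    have h3 := Real.exp_lt_exp.1 h1
    linarith
  have hFM : ∀ s : ℂ, 5 / 2 ≤ s.re → ‖F s‖ ≤ M := by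
    intro s hs'
    rw [← (hF s hs').tsum_eq]
    refine (tsum_of_norm_bounded hs.hasSum fun l => ?_).trans hsM
    rw [term_norm]
    refine mul_le_mul_of_nonneg_left (Real.exp_le_exp.2 ?_) (abs_nonneg _)
    have := hΛ l
    nlinarith
  obtain ⟨t, ht1, ht2, hfar⟩ := exists_far κ (T0 := T0) (by
    have : 0 ≤ 2 * M * (16 / 9 : ℝ) ^ N := by positivity
    linarith)
  have hT016 : 16 ≤ T0 := by
    have : 0 ≤ 2 * M * (16 / 9 : ℝ) ^ N := by positivity
    linarith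
  have ht16 : 16 ≤ t := by linarith
  -- sizes
  have hp2a := p2_low ht16 hfar
  have hp2b := p2_ratio (by linarith) hfar hj0
  have hp2c : 2 * M ^ 2 * p2 κ 0 ≤ p2 κ t := by
    refine le_trans (mul_le_mul_of_nonneg_right ?_ (p2_nonneg κ 0)) hp2b
    have h1 : 2 * M * (16 / 9 : ℝ) ^ N ≤ t := by linarith
    have h2 : (2 * M * (16 / 9 : ℝ) ^ N) ^ 2 ≤ t ^ 2 := pow_le_pow_left₀ (by positivity) h1 2
    have h3 : (9 / 16 : ℝ) ^ N * (2 * M * (16 / 9 : ℝ) ^ N) ^ 2 = 4 * M ^ 2 * (16 / 9 : ℝ) ^ N := by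
      have h4 : (9 / 16 : ℝ) ^ N * (16 / 9 : ℝ) ^ N = 1 := by
        rw [← mul_pow]
        norm_num
      linear_combination 4 * M ^ 2 * (16 / 9 : ℝ) ^ N * h4
    have h5 : (1 : ℝ) ≤ (16 / 9 : ℝ) ^ N := one_le_pow₀ (by norm_num)
    have h6 := mul_le_mul_of_nonneg_left h2 (show (0 : ℝ) ≤ (9 / 16 : ℝ) ^ N by positivity)
    rw [h3] at h6
    have h7 : 0 ≤ M ^ 2 := sq_nonneg M
    nlinarith
  -- the two values
  set X1 : ℝ := ‖F (((-3 / 2 : ℝ) : ℂ) + t * I)‖ with hX1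
  set X0 : ℝ := ‖F (((-3 / 2 : ℝ) : ℂ) + (0 : ℝ) * I)‖ with hX0
  have hX1' : Q ^ 4 * p * p2 κ t * (1 / M) ≤ X1 := by
    rw [hX1, norm_F2 h]
    refine mul_le_mul_of_nonneg_left (hlow _ (by simp)) ?_
    have := p2_nonneg κ t
    positivity
  have hX0' : X0 ≤ Q ^ 4 * p * p2 κ 0 * M := by
    rw [hX0, norm_F2 h]
    refine mul_le_mul_of_nonneg_left (hFM _ (by simp)) ?_
    have := p2_nonneg κ 0
    positivity
  have hgap : a0 * C ^ 2 ≤ X1 - X0 := by
    have h1 : Q ^ 4 * p * p2 κ 0 * M ≤ Q ^ 4 * p * p2 κ t * (1 / (2 * M)) := by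
      have h2 : p2 κ 0 * M ≤ p2 κ t * (1 / (2 * M)) := by
        rw [mul_one_div, le_div_iff₀ (by positivity)]
        nlinarith
      calc _ = Q ^ 4 * p * (p2 κ 0 * M) := by ring
        _ ≤ Q ^ 4 * p * (p2 κ t * (1 / (2 * M))) := mul_le_mul_of_nonneg_left h2 (by positivity)
        _ = _ := by ring
    have h3 : Q ^ 4 * p * (((16 : ℝ) ^ N)⁻¹ * PK κ ^ 2) * (1 / (2 * M)) ≤
        Q ^ 4 * p * p2 κ t * (1 / (2 * M)) := by
      gcongr
    have h4 : Q ^ 4 * p * (((16 : ℝ) ^ N)⁻¹ * PK κ ^ 2) * (1 / (2 * M)) = a0 * C ^ 2 := by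
      rw [ha0, hC]
      ring
    have h5 : Q ^ 4 * p * p2 κ t * (1 / M) = 2 * (Q ^ 4 * p * p2 κ t * (1 / (2 * M))) := by
      field_simp
    linarith
  -- the analytic part
  set R : ℝ := Real.exp (-y) * (Q ^ 6 * PK κ ^ 3 * M) * J with hR
  have hexpand := fun x : ℝ => expand (Λ := Λ) hs (fun s hs' => hF s hs'.ge) y x
  have hpic : (2 * Real.pi : ℂ) ≠ 0 := by
    have : (Real.pi : ℂ) ≠ 0 := by exact_mod_cast hpi.ne'
    simp [this]
  have hpin : ‖(2 * Real.pi : ℂ)‖ = 2 * Real.pi := by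
    rw [norm_mul, Complex.norm_real, Real.norm_of_nonneg hpi.le]
    simp
  set B : ℝ → ℂ := fun x => (2 * Real.pi : ℂ)⁻¹ *
    ∫ v : ℝ, F (((-3 / 2 : ℝ) : ℂ) + x * I + ((4 : ℝ) + v * I)) * cexp (((4 : ℝ) + v * I) * y) *
      EE 4 v with hB
  have hBsum : ∀ x : ℝ, HasSum (fun l => (c l : ℂ) *
      cexp (-((((-3 / 2 : ℝ) : ℂ) + x * I) * Λ l)) * VV (y - Λ l)) (B x) := by
    intro x
    have h1 := (hexpand x).mul_left (2 * Real.pi : ℂ)⁻¹
    refine h1.congr_fun fun l => ?_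
    rw [← mul_assoc, inv_mul_cancel₀ hpic, one_mul]
  have hdiff : ∀ x : ℝ, |x| ≤ Tm → ‖B x - F (((-3 / 2 : ℝ) : ℂ) + x * I)‖ ≤ R := by
    intro x hx
    have h1 := crossing h y x
    have h2 := left_int_bound h hM0.le hFM (y := y) (t := x) hx
    have h3 : B x - F (((-3 / 2 : ℝ) : ℂ) + x * I) = (2 * Real.pi : ℂ)⁻¹ *
        ∫ v : ℝ, F (((-3 / 2 : ℝ) : ℂ) + x * I + ((-1 : ℝ) + v * I)) *
        cexp (((-1 : ℝ) + v * I) * y) * EE (-1) v := by
      have h4 := congrArg (fun z => (2 * Real.pi : ℂ)⁻¹ * z) h1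
      simp only [mul_sub] at h4
      rw [← mul_assoc (2 * Real.pi : ℂ)⁻¹ (2 * Real.pi : ℂ), inv_mul_cancel₀ hpic, one_mul] at h4
      rw [← h4]
      ring
    rw [h3, norm_mul, norm_inv, hpin]
    have h5 : (2 * Real.pi)⁻¹ ≤ 1 := inv_le_one_of_one_le₀ (by linarith [Real.pi_gt_three])
    calc _ ≤ 1 * R := mul_le_mul h5 h2 (norm_nonneg _) zero_le_one
      _ = R := one_mul R
  have hcmp := compare hΛ hs hsM hc04 hpos (hBsum t) (hBsum 0)
  have hd1 := hdiff t (by rw [abs_of_nonneg (by linarith)]; exact ht2)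
  have hTm0 : 0 ≤ Tm := by rw [hTm]; positivity
  have hd0 := hdiff 0 (by simpa using hTm0)
  have h1 : X1 ≤ ‖B t‖ + R := by
    have : ‖F (((-3 / 2 : ℝ) : ℂ) + t * I)‖ ≤ ‖B t‖ + ‖B t - F (((-3 / 2 : ℝ) : ℂ) + t * I)‖ := by
      have := norm_sub_norm_le (F (((-3 / 2 : ℝ) : ℂ) + t * I)) (B t)
      rw [norm_sub_rev] at this
      linarith
    linarith
  have h2 : ‖B 0‖ ≤ X0 + R := by
    have := norm_sub_norm_le (B 0) (F (((-3 / 2 : ℝ) : ℂ) + (0 : ℝ) * I))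
    linarith
  -- numerical bounds
  have hRle : R ≤ a0 / 8 * C ^ 2 := by
    have h3 : Real.exp (-y) = (A2 * C)⁻¹ := by
      rw [Real.exp_neg, hy, Real.exp_log hAC]
    have h4 : R = C ^ 2 * (M * J / A2) := by
      rw [hR, h3, hC]
      have : PK κ ≠ 0 := by linarith
      field_simp
    have h5 : M * J / A2 ≤ a0 / 8 := by
      rw [div_le_iff₀ (by linarith), hA2]
      have : a0 / 8 * (8 * M * J / a0 + 1) = M * J + a0 / 8 := by
        field_simp
      rw [this]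
      linarith
    rw [h4]
    calc _ ≤ C ^ 2 * (a0 / 8) := mul_le_mul_of_nonneg_left h5 (sq_nonneg C)
      _ = _ := by ring
  have hTle : M * Real.exp (c0 ^ 2 + c0 * y - (c0 - 4) * T) ≤ a0 / 8 * C ^ 2 := by
    have h3 : c0 * y - (c0 - 4) * T = -(c0 * Real.log A3) := by
      have h4 : (c0 - 4) * (1 + ε) = c0 := by
        rw [hc0]
        field_simp
        ring
      rw [hT, hy, Real.log_mul (by linarith) hAC.ne']
      linear_combination (-(Real.log A3 + Real.log (A2 * C))) * h4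
    have h5 : Real.exp (c0 ^ 2 + c0 * y - (c0 - 4) * T) ≤ Real.exp (c0 ^ 2) / A3 := by
      have h6 : c0 ^ 2 + c0 * y - (c0 - 4) * T = c0 ^ 2 + -(c0 * Real.log A3) := by
        rw [← h3]
        ring
      rw [h6, Real.exp_add, div_eq_mul_inv]
      refine mul_le_mul_of_nonneg_left ?_ (Real.exp_pos _).le
      rw [Real.exp_neg]
      refine inv_anti₀ (by linarith) ?_
      calc A3 = Real.exp (Real.log A3) := (Real.exp_log (by linarith)).symm
        _ ≤ _ := Real.exp_le_exp.2 (by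
          have := Real.log_nonneg hA30
          nlinarith)
    have h7 : M * (Real.exp (c0 ^ 2) / A3) ≤ a0 / 8 := by
      rw [mul_div_assoc', div_le_iff₀ (by linarith), hA3]
      have : a0 / 8 * (8 * M * Real.exp (c0 ^ 2) / a0 + 1) = M * Real.exp (c0 ^ 2) + a0 / 8 := by
        field_simp
      rw [this]
      linarith
    have h8 : (1 : ℝ) ≤ C ^ 2 := one_le_pow₀ hC1
    have h9 := mul_le_mul_of_nonneg_left h5 hM0.le
    nlinarith
  have h10 : (1 : ℝ) ≤ C ^ 2 := one_le_pow₀ hC1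
  nlinarith

end Pool.Agent.TH949.LT
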