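import Pool.Agent.TH949.LT.Kernel

/-! Shifting the line of integration across the pole at `0`. -/

set_option autoImplicit false

namespace Pool.Agent.TH949.LT

open Complex MeasureTheory Set Filter Topology
open Pool.Agent.TH942.SL (V shift line_int decay_int line_cont)

theorem exp_aux (y : ℝ) : Real.exp (|y| - y ^ 2) ≤ Real.exp 3 * (1 + |y|) ^ (-2 : ℝ) := by
  have h0 : 0 ≤ |y| := abs_nonneg y
  have h1 : (1 + |y|) ^ 2 ≤ Real.exp (2 * |y|) := by
    have h2 : 1 + |y| ≤ Real.exp |y| := by linarith [Real.add_one_le_exp |y|]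
    calc (1 + |y|) ^ 2 ≤ (Real.exp |y|) ^ 2 := pow_le_pow_left₀ (by linarith) h2 2
      _ = _ := by rw [← Real.exp_nat_mul]; norm_num
  rw [Real.rpow_neg (by linarith), ← div_eq_mul_inv, le_div_iff₀ (by positivity)]
  have e : (1 + |y|) ^ (2 : ℝ) = (1 + |y|) ^ 2 := by
    rw [← Real.rpow_natCast]
    norm_num
  rw [e]
  calc Real.exp (|y| - y ^ 2) * (1 + |y|) ^ 2 ≤ Real.exp (|y| - y ^ 2) * Real.exp (2 * |y|) :=
        mul_le_mul_of_nonneg_left h1 (Real.exp_pos _).le
    _ = Real.exp (3 * |y| - y ^ 2) := by rw [← Real.exp_add]; congr 1; ring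
    _ ≤ _ := by
        refine Real.exp_le_exp.2 ?_
        rw [← sq_abs y]
        nlinarith [sq_nonneg (|y| - 3 / 2)]

theorem norm_exp_sq (w : ℂ) : ‖cexp (w ^ 2)‖ = Real.exp (w.re ^ 2 - w.im ^ 2) := by
  rw [Complex.norm_exp]
  congr 1
  simp [pow_two]

theorem slope_bound {H : ℂ → ℂ} (hH : Differentiable ℂ H) {C : ℝ}
    (hb : ∀ w : ℂ, -1 ≤ w.re → w.re ≤ 4 → ‖H w‖ ≤ C * Real.exp |w.im|) :
    ∃ B : ℝ, ∀ w : ℂ, -1 ≤ w.re → w.re ≤ 4 →
      ‖dslope H 0 w * cexp (w ^ 2)‖ ≤ B * (1 + |w.im|) ^ (-2 : ℝ) := by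
  have hd : Differentiable ℂ (dslope H 0) := by
    rw [← differentiableOn_univ] at hH ⊢
    exact (Complex.differentiableOn_dslope univ_mem).2 hH
  have hcont : Continuous fun w : ℂ => dslope H 0 w * cexp (w ^ 2) :=
    hd.continuous.mul (by fun_prop)
  have hcomp : IsCompact ((Icc (-1 : ℝ) 4) ×ℂ (Icc (-1 : ℝ) 1)) :=
    isCompact_Icc.reProdIm isCompact_Icc
  obtain ⟨B1, hB1⟩ := hcomp.exists_bound_of_continuousOn hcont.continuousOn
  have hC0 : 0 ≤ C := by
    have := (norm_nonneg _).trans (hb 0 (by simp) (by simp))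
    simpa using this
  have hB10 : 0 ≤ B1 := by
    refine (norm_nonneg _).trans (hB1 0 ?_)
    rw [Complex.mem_reProdIm]
    simp
  refine ⟨4 * B1 + 2 * C * Real.exp 19, fun w h1 h2 => ?_⟩
  have hp : 0 < (1 + |w.im|) ^ (-2 : ℝ) := by positivity
  rcases le_or_gt |w.im| 1 with h3 | h3
  · have h4 := hB1 w (by
      rw [Complex.mem_reProdIm]
      exact ⟨⟨h1, h2⟩, abs_le.1 h3⟩)
    have h5 : (1 / 4 : ℝ) ≤ (1 + |w.im|) ^ (-2 : ℝ) := by
      have h6 : (2 : ℝ) ^ (-2 : ℝ) ≤ (1 + |w.im|) ^ (-2 : ℝ) :=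
        Real.rpow_le_rpow_of_nonpos (by positivity) (by linarith) (by norm_num)
      have h7 : (2 : ℝ) ^ (-2 : ℝ) = 1 / 4 := by
        rw [Real.rpow_neg (by norm_num)]
        norm_num
      rw [h7] at h6
      exact h6
    have h8 : 0 ≤ 2 * C * Real.exp 19 := by positivity
    nlinarith
  · have hw : w ≠ 0 := by
      intro h
      rw [h] at h3
      norm_num at h3
    have hw1 : 1 ≤ ‖w‖ := h3.le.trans (Complex.abs_im_le_norm w)
    rw [dslope_of_ne _ hw, slope_def_field, sub_zero, norm_mul, norm_div, norm_exp_sq]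
    have h4 : ‖H w - H 0‖ ≤ 2 * C * Real.exp |w.im| := by
      have h5 := hb w h1 h2
      have h6 := hb 0 (by simp) (by simp)
      have h7 : C * Real.exp |(0 : ℂ).im| ≤ C * Real.exp |w.im| := by
        refine mul_le_mul_of_nonneg_left (Real.exp_le_exp.2 ?_) hC0
        simp
      calc _ ≤ ‖H w‖ + ‖H 0‖ := norm_sub_le _ _
        _ ≤ _ := by linarith
    have h5 : ‖H w - H 0‖ / ‖w‖ ≤ 2 * C * Real.exp |w.im| :=
      (div_le_self (norm_nonneg _) hw1).trans h4
    have h6 : Real.exp (w.re ^ 2 - w.im ^ 2) ≤ Real.exp 16 * Real.exp (- w.im ^ 2) := by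
      rw [← Real.exp_add]
      refine Real.exp_le_exp.2 ?_
      nlinarith
    calc _ ≤ 2 * C * Real.exp |w.im| * (Real.exp 16 * Real.exp (- w.im ^ 2)) :=
          mul_le_mul h5 h6 (Real.exp_pos _).le (by positivity)
      _ = 2 * C * Real.exp 16 * Real.exp (|w.im| - w.im ^ 2) := by
          rw [sub_eq_add_neg, Real.exp_add]
          ring
      _ ≤ 2 * C * Real.exp 16 * (Real.exp 3 * (1 + |w.im|) ^ (-2 : ℝ)) :=
          mul_le_mul_of_nonneg_left (exp_aux _) (by positivity)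
      _ = 2 * C * Real.exp 19 * (1 + |w.im|) ^ (-2 : ℝ) := by
          rw [show (19 : ℝ) = 16 + 3 by norm_num, Real.exp_add]
          ring
      _ ≤ _ := by
          refine mul_le_mul_of_nonneg_right ?_ hp.le
          linarith

/-- the kernel on a line -/
theorem E_int {c : ℝ} (hc : c ≠ 0) :
    Integrable fun v : ℝ => cexp ((c + v * I) ^ 2) / (c + v * I) := by
  have hne : ∀ v : ℝ, (c : ℂ) + v * I ≠ 0 := by
    intro v h
    have := congrArg Complex.re h
    simp at this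
    exact hc this
  have h1 : Integrable fun v : ℝ => Real.exp (c ^ 2) / |c| * Real.exp (-1 * v ^ 2) :=
    (integrable_exp_neg_mul_sq one_pos).const_mul _
  refine h1.mono' (Continuous.aestronglyMeasurable ?_) (Eventually.of_forall fun v => ?_)
  · exact Continuous.div (by fun_prop) (by fun_prop) hne
  · rw [norm_div, norm_exp_sq]
    have h2 : |c| ≤ ‖(c : ℂ) + v * I‖ := by
      have := Complex.abs_re_le_norm ((c : ℂ) + v * I)
      simpa using this
    have h3 : 0 < |c| := abs_pos.2 hc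
    have h4 : Real.exp (((c : ℂ) + v * I).re ^ 2 - ((c : ℂ) + v * I).im ^ 2) =
        Real.exp (c ^ 2) * Real.exp (-1 * v ^ 2) := by
      rw [← Real.exp_add]
      congr 1
      simp
      ring
    rw [h4, div_mul_eq_mul_div]
    exact div_le_div_of_nonneg_left (by positivity) h3 h2

theorem E_pos {c : ℝ} (hc : 0 < c) :
    ∫ v : ℝ, cexp ((c + v * I) ^ 2) / (c + v * I) = Real.pi := by
  have h1 := kernel hc 0
  rw [VV_zero] at h1
  have h2 : ∀ v : ℝ, cexp ((c + v * I) ^ 2) / (c + v * I) =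
      cexp ((c + v * I) ^ 2 + (c + v * I) * (0 : ℝ)) / (c + v * I) := by
    intro v
    simp
  simp_rw [h2]
  rw [h1]
  push_cast
  ring

theorem E_neg {c : ℝ} (hc : c < 0) :
    ∫ v : ℝ, cexp ((c + v * I) ^ 2) / (c + v * I) = -Real.pi := by
  have h1 := E_pos (c := -c) (by linarith)
  rw [← integral_neg_eq_self] 
  rw [← h1, ← integral_neg]
  congr 1
  ext v
  have e : ((-c : ℝ) : ℂ) + v * I = -((c : ℂ) + (-v : ℝ) * I) := by
    push_cast
    ring
  rw [e, neg_sq, div_neg, neg_neg]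

theorem cross {H : ℂ → ℂ} (hH : Differentiable ℂ H) {C : ℝ}
    (hb : ∀ w : ℂ, -1 ≤ w.re → w.re ≤ 4 → ‖H w‖ ≤ C * Real.exp |w.im|) :
    (∫ v : ℝ, H ((4 : ℝ) + v * I) * (cexp (((4 : ℝ) + v * I) ^ 2) / ((4 : ℝ) + v * I))) -
      ∫ v : ℝ, H ((-1 : ℝ) + v * I) * (cexp (((-1 : ℝ) + v * I) ^ 2) / ((-1 : ℝ) + v * I)) =
      2 * Real.pi * H 0 := by
  obtain ⟨B, hB⟩ := slope_bound hH hb
  have hd : Differentiable ℂ (dslope H 0) := by
    rw [← differentiableOn_univ] at hH ⊢
    exact (Complex.differentiableOn_dslope univ_mem).2 hH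
  set g : ℂ → ℂ := fun w => dslope H 0 w * cexp (w ^ 2) with hg
  have hgd : Differentiable ℂ g := hd.mul (by fun_prop)
  have h1 := shift (H := g) (a := -1) (b := 4) (p := 2) (B := B) (by norm_num) (by norm_num)
    (fun s _ _ => hgd s) hB
  unfold V at h1
  have hpi : (((2 * Real.pi)⁻¹ : ℝ) : ℂ) ≠ 0 := by
    have := Real.pi_pos
    exact_mod_cast (by positivity : (2 * Real.pi)⁻¹ ≠ 0)
  have h2 := mul_left_cancel₀ hpi h1
  have hline : ∀ c : ℝ, c ≠ 0 → -1 ≤ c → c ≤ 4 →
      ∫ v : ℝ, H (c + v * I) * (cexp ((c + v * I) ^ 2) / (c + v * I)) =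
      (∫ v : ℝ, g (c + v * I)) + H 0 * ∫ v : ℝ, cexp ((c + v * I) ^ 2) / (c + v * I) := by
    intro c hc hc1 hc2
    rw [← integral_const_mul, ← integral_add]
    · congr 1
      ext v
      have hne : (c : ℂ) + v * I ≠ 0 := by
        intro h
        have := congrArg Complex.re h
        simp at this
        exact hc this
      simp only [hg]
      rw [dslope_of_ne _ hne, slope_def_field, sub_zero]
      field_simp
      ring
    · exact line_int (p := 2) (B := B) (by norm_num) (fun s _ => hgd.continuous.continuousAt)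
        (fun s hs => hB s (by rw [hs]; exact hc1) (by rw [hs]; exact hc2))
    · exact (E_int hc).const_mul _
  rw [hline 4 (by norm_num) (by norm_num) (by norm_num),
    hline (-1) (by norm_num) (by norm_num) (by norm_num), h2, E_pos (by norm_num), E_neg (by norm_num)]
  ring

end Pool.Agent.TH949.LT
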