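import Pool.Agent.TH949.LT.Refl

/-! Estimates for the polynomial factors. -/

set_option autoImplicit false

namespace Pool.Agent.TH949.LT

open Filter Topology Complex

variable {N : ℕ}

/-- the archimedean conductor -/
noncomputable def PK (κ : Fin N → ℂ) : ℝ := ∏ j, (1 + ‖κ j‖)

theorem one_le_PK (κ : Fin N → ℂ) : 1 ≤ PK κ := by
  unfold PK
  calc (1 : ℝ) = ∏ _j : Fin N, (1 : ℝ) := by simp
    _ ≤ _ := Finset.prod_le_prod (fun _ _ => zero_le_one) fun j _ => by linarith [norm_nonneg (κ j)]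

/-- no shift at height comparable with `t` -/
def Far (κ : Fin N → ℂ) (t : ℝ) : Prop := ∀ j, |(κ j).im| ≤ t / 4 ∨ 4 * t ≤ |(κ j).im|

theorem far_im {y t : ℝ} (ht : 0 ≤ t) (h : |y| ≤ t / 4 ∨ 4 * t ≤ |y|) :
    3 / 4 * |y| ≤ |y + t| ∧ 3 / 4 * t ≤ |y + t| := by
  rcases h with h | h
  · have h1 := abs_le.1 h
    have h2 : y + t ≤ |y + t| := le_abs_self _
    constructor <;> linarith [abs_nonneg y]
  · rcases le_abs.1 h with h1 | h1
    · have h2 : y + t ≤ |y + t| := le_abs_self _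
      have h3 : |y| = y := abs_of_nonneg (by linarith)
      rw [h3]
      constructor <;> linarith
    · have h2 : -(y + t) ≤ |y + t| := neg_le_abs _
      have h3 : |y| = -y := abs_of_nonpos (by linarith)
      rw [h3]
      constructor <;> linarith

theorem far_low {k : ℂ} {x t : ℝ} (hx : |x| ≤ 3 / 2) (ht : 16 ≤ t)
    (h : |k.im| ≤ t / 4 ∨ 4 * t ≤ |k.im|) : (1 + ‖k‖) / 4 ≤ ‖k + (x : ℂ) + t * I‖ := by
  obtain ⟨h1, h2⟩ := far_im (by linarith) h
  set z : ℂ := k + (x : ℂ) + t * I with hz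
  have e1 : z.re = k.re + x := by simp [hz]
  have e2 : z.im = k.im + t := by simp [hz]
  have h3 := Complex.abs_re_le_norm z
  have h4 := Complex.abs_im_le_norm z
  rw [e1] at h3
  rw [e2] at h4
  have h5 : |k.re| - 3 / 2 ≤ |k.re + x| := by
    have := abs_sub_abs_le_abs_sub (k.re) (-x)
    rw [sub_neg_eq_add, abs_neg] at this
    linarith
  have h6 : ‖k‖ ≤ |k.re| + |k.im| := Complex.norm_le_abs_re_add_abs_im k
  have h7 := abs_nonneg k.im
  linarith

theorem far_ratio {k : ℂ} {x t : ℝ} (ht : 0 ≤ t)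
    (h : |k.im| ≤ t / 4 ∨ 4 * t ≤ |k.im|) : 3 / 4 * ‖k + (x : ℂ)‖ ≤ ‖k + (x : ℂ) + t * I‖ := by
  obtain ⟨h1, h2⟩ := far_im ht h
  rw [← abs_of_nonneg (norm_nonneg (k + (x : ℂ) + t * I)),
    ← abs_of_nonneg (show 0 ≤ 3 / 4 * ‖k + (x : ℂ)‖ by positivity), ← sq_le_sq, mul_pow,
    ← Complex.normSq_eq_norm_sq, ← Complex.normSq_eq_norm_sq, Complex.normSq_apply,
    Complex.normSq_apply]
  have e1 : (k + (x : ℂ) + t * I).re = k.re + x := by simp
  have e2 : (k + (x : ℂ) + t * I).im = k.im + t := by simp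
  have e3 : (k + (x : ℂ)).re = k.re + x := by simp
  have e4 : (k + (x : ℂ)).im = k.im := by simp
  rw [e1, e2, e3, e4]
  have h3 : (3 / 4 * |k.im|) ^ 2 ≤ |k.im + t| ^ 2 := pow_le_pow_left₀ (by positivity) h1 2
  rw [mul_pow, sq_abs, sq_abs] at h3
  nlinarith [sq_nonneg (k.re + x)]

theorem p2_low {κ : Fin N → ℂ} {t : ℝ} (ht : 16 ≤ t) (h : Far κ t) :
    ((16 : ℝ) ^ N)⁻¹ * PK κ ^ 2 ≤ p2 κ t := by
  have e : ((16 : ℝ) ^ N)⁻¹ * PK κ ^ 2 = ∏ j, ((1 + ‖κ j‖) / 4 * ((1 + ‖κ j‖) / 4)) := by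
    unfold PK
    rw [← Finset.prod_pow, ← inv_pow]
    have e4 : ((16 : ℝ)⁻¹) ^ N = ∏ _j : Fin N, (16 : ℝ)⁻¹ := by
      rw [Finset.prod_const, Finset.card_univ, Fintype.card_fin]
    rw [e4, ← Finset.prod_mul_distrib]
    refine Finset.prod_congr rfl fun j _ => ?_
    ring
  rw [e]
  unfold p2
  refine Finset.prod_le_prod (fun j _ => by positivity) fun j _ => ?_
  refine mul_le_mul (far_low ?_ ht (h j)) (far_low ?_ ht (h j)) (by positivity) (norm_nonneg _)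
  · rw [abs_le]; constructor <;> norm_num
  · rw [abs_le]; constructor <;> norm_num

theorem p2_ratio {κ : Fin N → ℂ} {t : ℝ} (ht : 1 ≤ t) (h : Far κ t) {j0 : Fin N} (h0 : κ j0 = 0) :
    (9 / 16 : ℝ) ^ N * t ^ 2 * p2 κ 0 ≤ p2 κ t := by
  have e : (9 / 16 : ℝ) ^ N * t ^ 2 * p2 κ 0 = ∏ j, ((9 / 16) * (if j = j0 then t ^ 2 else 1) *
      (‖κ j + ((-3 / 2 : ℝ) : ℂ)‖ * ‖κ j + ((1 / 2 : ℝ) : ℂ)‖)) := by
    have e1 : ∏ j : Fin N, ((9 / 16 : ℝ) * (if j = j0 then t ^ 2 else 1)) = (9 / 16) ^ N * t ^ 2 := by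
      rw [Finset.prod_mul_distrib, Finset.prod_ite_eq', Finset.prod_const,
        Finset.card_univ, Fintype.card_fin]
      simp
    rw [Finset.prod_mul_distrib, e1]
    unfold p2
    simp
  rw [e]
  unfold p2
  refine Finset.prod_le_prod (fun j _ => by
    split_ifs <;> positivity) fun j _ => ?_
  by_cases hj : j = j0
  · rw [if_pos hj, hj, h0, zero_add, zero_add]
    have h1 : t ≤ ‖((-3 / 2 : ℝ) : ℂ) + t * I‖ := by
      have := Complex.abs_im_le_norm (((-3 / 2 : ℝ) : ℂ) + t * I)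
      simp at this
      rw [abs_of_nonneg (by linarith)] at this
      simpa using this
    have h2 : t ≤ ‖((1 / 2 : ℝ) : ℂ) + t * I‖ := by
      have := Complex.abs_im_le_norm (((1 / 2 : ℝ) : ℂ) + t * I)
      simp at this
      rw [abs_of_nonneg (by linarith)] at this
      simpa using this
    have h3 : ‖((-3 / 2 : ℝ) : ℂ)‖ = 3 / 2 := by
      rw [Complex.norm_real, Real.norm_eq_abs, abs_of_nonpos (by norm_num)]
      norm_num
    have h4 : ‖((1 / 2 : ℝ) : ℂ)‖ = 1 / 2 := by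
      rw [Complex.norm_real, Real.norm_eq_abs, abs_of_nonneg (by norm_num)]
    rw [h3, h4]
    have h5 := mul_le_mul h1 h2 (by linarith) (norm_nonneg _)
    nlinarith [sq_nonneg t]
  · rw [if_neg hj, mul_one]
    have h1 := far_ratio (k := κ j) (x := -3 / 2) (by linarith) (h j)
    have h2 := far_ratio (k := κ j) (x := 1 / 2) (by linarith) (h j)
    have h5 := mul_le_mul h1 h2 (by positivity) (norm_nonneg _)
    refine le_trans (le_of_eq ?_) h5
    ring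

theorem p3_le (κ : Fin N → ℂ) (t : ℝ) : p3 κ t ≤ PK κ ^ 3 * (5 / 2 + |t|) ^ (3 * N) := by
  have e : PK κ ^ 3 * (5 / 2 + |t|) ^ (3 * N) = ∏ j, (((1 + ‖κ j‖) * (5 / 2 + |t|)) *
      ((1 + ‖κ j‖) * (5 / 2 + |t|)) * ((1 + ‖κ j‖) * (5 / 2 + |t|))) := by
    unfold PK
    rw [← Finset.prod_pow, pow_mul]
    have e4 : ((5 / 2 + |t|) ^ 3) ^ N = ∏ _j : Fin N, (5 / 2 + |t|) ^ 3 := by
      rw [Finset.prod_const, Finset.card_univ, Fintype.card_fin]
    rw [e4, ← Finset.prod_mul_distrib]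
    refine Finset.prod_congr rfl fun j _ => ?_
    ring
  rw [e]
  unfold p3
  have key : ∀ (x : ℝ) (j : Fin N), |x| ≤ 5 / 2 →
      ‖κ j + (x : ℂ) + t * I‖ ≤ (1 + ‖κ j‖) * (5 / 2 + |t|) := by
    intro x j hx
    have h1 : ‖κ j + (x : ℂ) + t * I‖ ≤ ‖κ j‖ + |x| + |t| := by
      refine (norm_add_le _ _).trans (add_le_add ((norm_add_le _ _).trans (le_of_eq ?_)) (le_of_eq ?_))
      · rw [Complex.norm_real, Real.norm_eq_abs]
      · simp
    have h2 := norm_nonneg (κ j)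
    have h3 := abs_nonneg t
    nlinarith
  refine Finset.prod_le_prod (fun j _ => by positivity) fun j _ => ?_
  refine mul_le_mul (mul_le_mul (key _ j ?_) (key _ j ?_) (norm_nonneg _) (by positivity))
    (key _ j ?_) (norm_nonneg _) (by positivity)
  · rw [abs_le]; constructor <;> norm_num
  · rw [abs_le]; constructor <;> norm_num
  · rw [abs_le]; constructor <;> norm_num

theorem p3_nonneg (κ : Fin N → ℂ) (t : ℝ) : 0 ≤ p3 κ t := by
  unfold p3
  exact Finset.prod_nonneg fun j _ => by positivity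

theorem p2_nonneg (κ : Fin N → ℂ) (t : ℝ) : 0 ≤ p2 κ t := by
  unfold p2
  exact Finset.prod_nonneg fun j _ => by positivity

theorem exists_far (κ : Fin N → ℂ) {T0 : ℝ} (hT0 : 0 < T0) :
    ∃ t : ℝ, T0 ≤ t ∧ t ≤ T0 * 16 ^ N ∧ Far κ t := by
  by_contra hcon
  push Not at hcon
  have h1 : ∀ m : Fin (N + 1), ∃ j : Fin N, T0 * 16 ^ (m : ℕ) / 4 < |(κ j).im| ∧
      |(κ j).im| < 4 * (T0 * 16 ^ (m : ℕ)) := by
    intro m
    have h2 : (1 : ℝ) ≤ 16 ^ (m : ℕ) := one_le_pow₀ (by norm_num)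
    have h3 : (16 : ℝ) ^ (m : ℕ) ≤ 16 ^ N := pow_le_pow_right₀ (by norm_num) (Nat.lt_succ_iff.1 m.2)
    have h4 := hcon (T0 * 16 ^ (m : ℕ)) (by nlinarith) (mul_le_mul_of_nonneg_left h3 hT0.le)
    unfold Far at h4
    push Not at h4
    exact h4
  choose f hf using h1
  obtain ⟨m, m', hne, he⟩ := Fintype.exists_ne_map_eq_of_card_lt f (by simp)
  wlog hlt : m < m' generalizing m m'
  · exact this m' m hne.symm he.symm (lt_of_le_of_ne (not_lt.1 hlt) hne.symm)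
  have h5 : (16 : ℝ) ^ ((m : ℕ) + 1) ≤ 16 ^ (m' : ℕ) :=
    pow_le_pow_right₀ (by norm_num) (Nat.succ_le_of_lt hlt)
  have h6 := (hf m).2
  have h7 := (hf m').1
  rw [← he] at h7
  rw [pow_succ] at h5
  have h8 := mul_le_mul_of_nonneg_left h5 hT0.le
  linarith

end Pool.Agent.TH949.LT
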