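import Pool.Agent.TH949.LT.Abs
import Pool.Agent.TH949.LT.ExpSum
import Pool.Agent.TH861.GL3.Main
import Pool.Agent.W189.TP.Fin

/-! The least tempered place for `GL(3)` over a number field. -/

set_option autoImplicit false

namespace Pool.Agent.TH949.LT

open NumberField IsDedekindDomain Filter Topology
open Pool.Agent.W189.TP (DS DS_norm_le norm_term)
open Pool.Agent.TH861.GL3

/-- Properties of the Satake parameters `α v`, `v ∉ S`, of a unitary cuspidal automorphic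
representation `π` of `GL_3` over the number field `K`, of the parameters `β v`, `v ∈ S`, and `κ` of the local
factors of its adjoint `L`-function at the places of `S` and at the infinite places, and of `Q`, `Q²` the conductor
of the adjoint `L`-function; `F` is the finite part of the adjoint `L`-function and `Ξ` the completed one. -/
structure AdjointGL3 {K : Type*} [Field K] [NumberField K] {S : Finset (HeightOneSpectrum (𝓞 K))}
    (α : PL S → Fin 3 → ℂ) (β : S → Fin 8 → ℂ) (κ : Fin (8 * Module.finrank ℚ K) → ℂ) (Q : ℝ) : Prop where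
  /-- the local components are unitary -/
  unitary : ∀ v, (∀ i, α v i ≠ 0) ∧
    Multiset.map (fun i => ((starRingEnd ℂ) (α v i))⁻¹) Finset.univ.val =
      Multiset.map (α v) Finset.univ.val
  /-- bound of Jacquet and Shalika -/
  bound : ∀ v i, ‖α v i‖ < (qq v.1 : ℝ) ^ (1 / 2 : ℝ)
  /-- the local factors at `S` -/
  ramified : ∀ v i, ‖β v i‖ < (qq v.1 : ℝ)
  /-- the logarithms of the local factors at `S` have nonnegative coefficients -/
  ramified_nonneg : ∀ v (k : ℕ), ∃ r : ℝ, 0 ≤ r ∧ ∑ i, β v i ^ (k + 1) = (r : ℂ)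
  /-- the conductor -/
  one_le : 1 ≤ Q
  /-- the local factors at the infinite places -/
  conj : Multiset.map (fun j => (starRingEnd ℂ) (κ j)) Finset.univ.val =
      Multiset.map κ Finset.univ.val
  re : ∀ j, -1 < (κ j).re
  zero : ∃ j, κ j = 0
  /-- the adjoint `L`-function -/
  adjoint : ∃ (F Ξ : ℂ → ℂ) (ω : ℂ), Differentiable ℂ F ∧ Differentiable ℂ Ξ ∧ ‖ω‖ = 1 ∧
    (∀ a b : ℝ, ∃ (C : ℝ) (A : ℕ), ∀ s : ℂ, a ≤ s.re → s.re ≤ b → ‖F s‖ ≤ C * (1 + |s.im|) ^ A) ∧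
    (∀ s : ℂ, 2 < s.re → F s * ∏ v, ∏ i, (1 - β v i * ((qq v.1 : ℕ) : ℂ) ^ (-s)) =
      Complex.exp (logAd α s)) ∧
    (∀ s : ℂ, 2 < s.re → Ξ s = F s * ((Q : ℂ) ^ s * ∏ j, Complex.Gammaℝ (s + κ j))) ∧
    ∀ s : ℂ, Ξ (1 - s) = ω * Ξ s

variable {K : Type*} [Field K] [NumberField K] {S : Finset (HeightOneSpectrum (𝓞 K))}
  {α : PL S → Fin 3 → ℂ} {β : S → Fin 8 → ℂ} {κ : Fin (8 * Module.finrank ℚ K) → ℂ} {Q : ℝ}

/-- `log (q_v ^ (k + 1))` at the places of `S` -/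
noncomputable def LS (x : S × ℕ) : ℝ := ((x.2 : ℝ) + 1) * Real.log (qq x.1.1 : ℝ)

/-- the coefficients at the places of `S` -/
noncomputable def dS (β : S → Fin 8 → ℂ) (x : S × ℕ) : ℝ := (∑ i, β x.1 i ^ (x.2 + 1)).re / ((x.2 : ℝ) + 1)

theorem LS_nonneg (x : S × ℕ) : 0 ≤ LS x := by
  unfold LS
  have := Real.log_nonneg (one_lt_qq x.1.1).le
  positivity

theorem rexp_LS (x : S × ℕ) (σ : ℝ) :
    Real.exp (-(σ * LS x)) = ((qq x.1.1 : ℝ) ^ (-σ)) ^ (x.2 + 1) := by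
  rw [Real.rpow_def_of_pos (qq_pos x.1.1), ← Real.exp_nat_mul]
  congr 1
  unfold LS
  push_cast
  ring

theorem cexp_LS (x : S × ℕ) (s : ℂ) :
    Complex.exp (-(s * LS x)) = (((qq x.1.1 : ℕ) : ℂ) ^ (-s)) ^ (x.2 + 1) := by
  have hp : ((qq x.1.1 : ℕ) : ℂ) ≠ 0 := by
    have := two_le_qq x.1.1
    exact_mod_cast (by omega : qq x.1.1 ≠ 0)
  rw [Complex.cpow_def_of_ne_zero hp, ← Complex.exp_nat_mul]
  congr 1
  unfold LS
  push_cast
  ring

/-- a constant of `K` -/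
noncomputable def WK (K : Type*) [Field K] [NumberField K] : ℝ :=
  ∑' x : PL (∅ : Finset (HeightOneSpectrum (𝓞 K))) × ℕ, Real.exp (-(3 / 2 * LL x))

theorem WK_sum (K : Type*) [Field K] [NumberField K] :
    Summable fun x : PL (∅ : Finset (HeightOneSpectrum (𝓞 K))) × ℕ => Real.exp (-(3 / 2 * LL x)) := by
  have h := summable_pp (S := (∅ : Finset (HeightOneSpectrum (𝓞 K)))) (fun _ => 1) (fun _ => zero_le_one)
    (σ := 3 / 2) (by norm_num) ((summable_qq (by norm_num)).congr fun p => (one_mul _).symm)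
  exact h.congr fun x => one_mul _

/-- the places outside `S` inside all places -/
def jP (x : PL S × ℕ) : PL (∅ : Finset (HeightOneSpectrum (𝓞 K))) × ℕ := (⟨x.1.1, by simp⟩, x.2)

/-- the places of `S` inside all places -/
def jS (x : S × ℕ) : PL (∅ : Finset (HeightOneSpectrum (𝓞 K))) × ℕ := (⟨x.1.1, by simp⟩, x.2)

omit [NumberField K] in
theorem jP_inj : Function.Injective (jP (S := S)) := by
  rintro ⟨⟨a, ha⟩, k⟩ ⟨⟨b, hb⟩, l⟩ h
  simp only [jP, Prod.mk.injEq, Subtype.mk.injEq] at h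
  obtain ⟨h1, h2⟩ := h
  subst h1 h2
  rfl

omit [NumberField K] in
theorem jS_inj : Function.Injective (jS (S := S)) := by
  rintro ⟨⟨a, ha⟩, k⟩ ⟨⟨b, hb⟩, l⟩ h
  simp only [jS, Prod.mk.injEq, Subtype.mk.injEq] at h
  obtain ⟨h1, h2⟩ := h
  subst h1 h2
  rfl

theorem sum_P : Summable (fun x : PL S × ℕ => Real.exp (-(3 / 2 * LL x))) ∧
    ∑' x : PL S × ℕ, Real.exp (-(3 / 2 * LL x)) ≤ WK K := by
  have h1 := (WK_sum K).comp_injective (jP_inj (S := S))
  refine ⟨h1, ?_⟩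
  exact h1.tsum_le_tsum_of_inj jP jP_inj (fun _ _ => (Real.exp_pos _).le) (fun _ => le_rfl) (WK_sum K)

theorem sum_S : Summable (fun x : S × ℕ => Real.exp (-(3 / 2 * LS x))) ∧
    ∑' x : S × ℕ, Real.exp (-(3 / 2 * LS x)) ≤ WK K := by
  have h1 := (WK_sum K).comp_injective (jS_inj (S := S))
  refine ⟨h1, ?_⟩
  exact h1.tsum_le_tsum_of_inj jS jS_inj (fun _ _ => (Real.exp_pos _).le) (fun _ => le_rfl) (WK_sum K)

theorem dd_le (h : AdjointGL3 α β κ Q) (x : PL S × ℕ) :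
    |dd α x| * Real.exp (-(5 / 2 * LL x)) ≤ 9 * Real.exp (-(3 / 2 * LL x)) := by
  have hq := one_lt_qq x.1.1
  have hq0 : (0 : ℝ) < qq x.1.1 := by linarith
  have h1 : ‖∑ i, α x.1 i ^ (x.2 + 1)‖ ≤ 3 * ((qq x.1.1 : ℝ) ^ (1 / 2 : ℝ)) ^ (x.2 + 1) := by
    refine (norm_sum_le _ _).trans ?_
    calc _ ≤ ∑ _i : Fin 3, ((qq x.1.1 : ℝ) ^ (1 / 2 : ℝ)) ^ (x.2 + 1) := by
          refine Finset.sum_le_sum fun i _ => ?_
          rw [norm_pow]
          exact pow_le_pow_left₀ (norm_nonneg _) (h.bound x.1 i).le _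
      _ = _ := by simp
  have h2 : ‖∑ i, α x.1 i ^ (x.2 + 1)‖ ^ 2 ≤ 9 * Real.exp (LL x) := by
    have h3 : Real.exp (LL x) = (((qq x.1.1 : ℝ) ^ (1 / 2 : ℝ)) ^ (x.2 + 1)) ^ 2 := by
      have := rexp_LL x (-1)
      rw [neg_neg, neg_one_mul, neg_neg, Real.rpow_one] at this
      rw [this, pow_right_comm, ← Real.rpow_natCast (((qq x.1.1 : ℝ) ^ (1 / 2 : ℝ))) 2,
        ← Real.rpow_mul hq0.le]
      norm_num
    rw [h3]
    calc _ ≤ (3 * ((qq x.1.1 : ℝ) ^ (1 / 2 : ℝ)) ^ (x.2 + 1)) ^ 2 := pow_le_pow_left₀ (norm_nonneg _) h1 2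
      _ = _ := by ring
  have h4 : 1 ≤ Real.exp (LL x) := Real.one_le_exp (LL_nonneg x)
  have h5 : |dd α x| ≤ 9 * Real.exp (LL x) := by
    unfold dd
    have hk : (1 : ℝ) ≤ (x.2 : ℝ) + 1 := by
      have : (0 : ℝ) ≤ x.2 := Nat.cast_nonneg _
      linarith
    rw [abs_div, abs_of_pos (by linarith : (0 : ℝ) < (x.2 : ℝ) + 1)]
    refine (div_le_self (abs_nonneg _) hk).trans ?_
    rw [abs_le]
    have := sq_nonneg ‖∑ i, α x.1 i ^ (x.2 + 1)‖
    constructor <;> linarith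
  calc _ ≤ 9 * Real.exp (LL x) * Real.exp (-(5 / 2 * LL x)) :=
        mul_le_mul_of_nonneg_right h5 (Real.exp_pos _).le
    _ = _ := by
        rw [mul_assoc, ← Real.exp_add]
        congr 2
        ring

theorem dS_le (h : AdjointGL3 α β κ Q) (x : S × ℕ) :
    |dS β x| * Real.exp (-(5 / 2 * LS x)) ≤ 9 * Real.exp (-(3 / 2 * LS x)) := by
  have hq := one_lt_qq x.1.1
  have h1 : |(∑ i, β x.1 i ^ (x.2 + 1)).re| ≤ 9 * Real.exp (LS x) := by
    have h3 : Real.exp (LS x) = (qq x.1.1 : ℝ) ^ (x.2 + 1) := by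
      have := rexp_LS x (-1)
      rw [neg_neg, neg_one_mul, neg_neg, Real.rpow_one] at this
      exact this
    rw [h3]
    refine (Complex.abs_re_le_norm _).trans ((norm_sum_le _ _).trans ?_)
    calc _ ≤ ∑ _i : Fin 8, (qq x.1.1 : ℝ) ^ (x.2 + 1) := by
          refine Finset.sum_le_sum fun i _ => ?_
          rw [norm_pow]
          exact pow_le_pow_left₀ (norm_nonneg _) (h.ramified x.1 i).le _
      _ = 8 * (qq x.1.1 : ℝ) ^ (x.2 + 1) := by simp
      _ ≤ _ := by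
        have : (0 : ℝ) ≤ (qq x.1.1 : ℝ) ^ (x.2 + 1) := by positivity
        linarith
  have h5 : |dS β x| ≤ 9 * Real.exp (LS x) := by
    unfold dS
    have hk : (1 : ℝ) ≤ (x.2 : ℝ) + 1 := by
      have : (0 : ℝ) ≤ x.2 := Nat.cast_nonneg _
      linarith
    rw [abs_div, abs_of_pos (by linarith : (0 : ℝ) < (x.2 : ℝ) + 1)]
    exact (div_le_self (abs_nonneg _) hk).trans h1
  calc _ ≤ 9 * Real.exp (LS x) * Real.exp (-(5 / 2 * LS x)) :=
        mul_le_mul_of_nonneg_right h5 (Real.exp_pos _).le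
    _ = _ := by
        rw [mul_assoc, ← Real.exp_add]
        congr 2
        ring

/-- the exponential of the coefficients at `S` -/
theorem exp_DS_S (h : AdjointGL3 α β κ Q) {s : ℂ} (hs : 5 / 2 ≤ s.re) :
    Complex.exp (DS (dS β) LS s) = (∏ v, ∏ i, (1 - β v i * ((qq v.1 : ℕ) : ℂ) ^ (-s)))⁻¹ := by
  have hz : ∀ (v : S) (i : Fin 8), ‖β v i * ((qq v.1 : ℕ) : ℂ) ^ (-s)‖ < 1 / 2 := by
    intro v i
    have hq := two_le_qq v.1
    have hq' : (2 : ℝ) ≤ (qq v.1 : ℝ) := by exact_mod_cast hq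
    have hq0 : (0 : ℝ) < (qq v.1 : ℝ) := by linarith
    rw [norm_mul, Complex.norm_natCast_cpow_of_pos (by omega), Complex.neg_re]
    have h1 : (qq v.1 : ℝ) ^ (-s.re) ≤ (qq v.1 : ℝ) ^ (-2 : ℝ) :=
      Real.rpow_le_rpow_of_exponent_le (by linarith) (by linarith)
    have h2 : (qq v.1 : ℝ) ^ (-2 : ℝ) = ((qq v.1 : ℝ) ^ 2)⁻¹ := by
      rw [Real.rpow_neg hq0.le]
      norm_num
    have h3 : 0 < (qq v.1 : ℝ) ^ (-s.re) := by positivity
    calc ‖β v i‖ * (qq v.1 : ℝ) ^ (-s.re) < (qq v.1 : ℝ) * (qq v.1 : ℝ) ^ (-s.re) :=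
          mul_lt_mul_of_pos_right (h.ramified v i) h3
      _ ≤ (qq v.1 : ℝ) * ((qq v.1 : ℝ) ^ 2)⁻¹ := mul_le_mul_of_nonneg_left (h1.trans h2.le) hq0.le
      _ = 1 / (qq v.1 : ℝ) := by field_simp
      _ ≤ 1 / 2 := one_div_le_one_div_of_le (by norm_num) hq'
  have hlog : ∀ (v : S) (i : Fin 8), HasSum (fun k : ℕ =>
      (β v i * ((qq v.1 : ℕ) : ℂ) ^ (-s)) ^ (k + 1) / ((k : ℂ) + 1))
      (-Complex.log (1 - β v i * ((qq v.1 : ℕ) : ℂ) ^ (-s))) := by
    intro v i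
    have h1 := Complex.hasSum_taylorSeries_neg_log ((hz v i).trans (by norm_num))
    have h2 := (hasSum_nat_add_iff' 1).2 h1
    simp only [Finset.range_one, Finset.sum_singleton, pow_zero, Nat.cast_zero, div_zero, sub_zero,
      Nat.cast_add, Nat.cast_one] at h2
    exact h2
  have hsum : Summable fun x : S × ℕ => (dS β x : ℂ) * Complex.exp (-(s * LS x)) := by
    refine Summable.of_norm_bounded ((sum_S (S := S)).1.mul_left 9) fun x => ?_
    rw [norm_term]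
    refine le_trans ?_ (dS_le h x)
    refine mul_le_mul_of_nonneg_left (Real.exp_le_exp.2 ?_) (abs_nonneg _)
    have := LS_nonneg x
    nlinarith
  have hfib : ∀ v : S, HasSum (fun k : ℕ => (dS β (v, k) : ℂ) * Complex.exp (-(s * LS (v, k))))
      (∑ i, -Complex.log (1 - β v i * ((qq v.1 : ℕ) : ℂ) ^ (-s))) := by
    intro v
    refine (hasSum_sum fun i _ => hlog v i).congr_fun fun k => ?_
    rw [cexp_LS]
    obtain ⟨r, hr0, hr⟩ := h.ramified_nonneg v k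
    have e : (dS β (v, k) : ℂ) = (∑ i, β v i ^ (k + 1)) / ((k : ℂ) + 1) := by
      unfold dS
      simp only
      rw [hr, Complex.ofReal_re]
      push_cast
      rfl
    rw [e]
    simp_rw [mul_pow]
    rw [← Finset.sum_div, ← Finset.sum_mul]
    ring
  have h1 := hsum.hasSum.prod_fiberwise hfib
  have h2 : DS (dS β) LS s = ∑ v, ∑ i, -Complex.log (1 - β v i * ((qq v.1 : ℕ) : ℂ) ^ (-s)) :=
    h1.unique (hasSum_fintype _)
  rw [h2, Complex.exp_sum, ← Finset.prod_inv_distrib]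
  refine Finset.prod_congr rfl fun v _ => ?_
  rw [Complex.exp_sum, ← Finset.prod_inv_distrib]
  refine Finset.prod_congr rfl fun i _ => ?_
  have hne : 1 - β v i * ((qq v.1 : ℕ) : ℂ) ^ (-s) ≠ 0 := by
    intro h0
    have h3 := hz v i
    rw [← sub_eq_zero.1 h0] at h3
    norm_num at h3
  rw [Complex.exp_neg, Complex.exp_log hne]

/-- all coefficients -/
noncomputable def dA (α : PL S → Fin 3 → ℂ) (β : S → Fin 8 → ℂ) : (PL S × ℕ) ⊕ (S × ℕ) → ℝ :=
  Sum.elim (dd α) (dS β)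

/-- all frequencies -/
noncomputable def LA (S : Finset (HeightOneSpectrum (𝓞 K))) : (PL S × ℕ) ⊕ (S × ℕ) → ℝ :=
  Sum.elim LL LS

theorem LA_nonneg (x : (PL S × ℕ) ⊕ (S × ℕ)) : 0 ≤ LA S x := by
  rcases x with x | x
  · exact LL_nonneg x
  · exact LS_nonneg x

theorem sum_abs (h : AdjointGL3 α β κ Q) :
    (Summable fun x => |dA α β x| * Real.exp (-(5 / 2 * LA S x))) ∧
    ∑' x, |dA α β x| * Real.exp (-(5 / 2 * LA S x)) ≤ 18 * WK K := by
  have h1 : Summable fun x : PL S × ℕ => |dd α x| * Real.exp (-(5 / 2 * LL x)) :=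
    Summable.of_nonneg_of_le (fun x => by positivity) (dd_le h) (sum_P.1.mul_left 9)
  have h2 : Summable fun x : S × ℕ => |dS β x| * Real.exp (-(5 / 2 * LS x)) :=
    Summable.of_nonneg_of_le (fun x => by positivity) (dS_le h) (sum_S.1.mul_left 9)
  have h3 := HasSum.sum (f := fun x => |dA α β x| * Real.exp (-(5 / 2 * LA S x))) h1.hasSum h2.hasSum
  refine ⟨h3.summable, ?_⟩
  rw [h3.tsum_eq]
  have h4 : ∑' x : PL S × ℕ, |dd α x| * Real.exp (-(5 / 2 * LL x)) ≤ 9 * WK K := by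
    refine (h1.tsum_le_tsum (dd_le h) (sum_P.1.mul_left 9)).trans ?_
    rw [tsum_mul_left]
    exact mul_le_mul_of_nonneg_left sum_P.2 (by norm_num)
  have h5 : ∑' x : S × ℕ, |dS β x| * Real.exp (-(5 / 2 * LS x)) ≤ 9 * WK K := by
    refine (h2.tsum_le_tsum (dS_le h) (sum_S.1.mul_left 9)).trans ?_
    rw [tsum_mul_left]
    exact mul_le_mul_of_nonneg_left sum_S.2 (by norm_num)
  linarith

/-- the `L`-function as an exponential -/
theorem F_eq (h : AdjointGL3 α β κ Q) {F : ℂ → ℂ}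
    (hF : ∀ s : ℂ, 2 < s.re → F s * ∏ v, ∏ i, (1 - β v i * ((qq v.1 : ℕ) : ℂ) ^ (-s)) =
      Complex.exp (logAd α s)) {s : ℂ} (hs : 5 / 2 ≤ s.re) :
    F s = Complex.exp (DS (dA α β) (LA S) s) := by
  have h1 : Summable fun x : PL S × ℕ => |dd α x| * Real.exp (-(5 / 2 * LL x)) :=
    Summable.of_nonneg_of_le (fun x => by positivity) (dd_le h) (sum_P.1.mul_left 9)
  have h2 : Summable fun x : S × ℕ => |dS β x| * Real.exp (-(5 / 2 * LS x)) :=
    Summable.of_nonneg_of_le (fun x => by positivity) (dS_le h) (sum_S.1.mul_left 9)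
  have h1' : Summable fun x : PL S × ℕ => (dd α x : ℂ) * Complex.exp (-(s * LL x)) := by
    refine Summable.of_norm_bounded h1 fun x => ?_
    rw [norm_term]
    refine mul_le_mul_of_nonneg_left (Real.exp_le_exp.2 ?_) (abs_nonneg _)
    have := LL_nonneg x
    nlinarith
  have h2' : Summable fun x : S × ℕ => (dS β x : ℂ) * Complex.exp (-(s * LS x)) := by
    refine Summable.of_norm_bounded h2 fun x => ?_
    rw [norm_term]
    refine mul_le_mul_of_nonneg_left (Real.exp_le_exp.2 ?_) (abs_nonneg _)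
    have := LS_nonneg x
    nlinarith
  have h3 := HasSum.sum (f := fun x => (dA α β x : ℂ) * Complex.exp (-(s * LA S x))) h1'.hasSum h2'.hasSum
  have h4 : DS (dA α β) (LA S) s = DS (dd α) LL s + DS (dS β) LS s := h3.tsum_eq
  rw [h4, Complex.exp_add, ← logAd_eq, ← hF s (by linarith), exp_DS_S h hs]
  have hne : ∏ v, ∏ i, (1 - β v i * ((qq v.1 : ℕ) : ℂ) ^ (-s)) ≠ 0 := by
    intro h0
    have h5 := exp_DS_S h hs
    rw [h0, inv_zero] at h5
    exact Complex.exp_ne_zero _ h5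
  field_simp

theorem LL_of (x : PL S × ℕ) : Real.exp (LL x) = (qq x.1.1 : ℝ) ^ (x.2 + 1) := by
  have := rexp_LL x (-1)
  rw [neg_neg, neg_one_mul, neg_neg, Real.rpow_one] at this
  exact this

/-- **The least tempered place.** -/
theorem least_tempered.{u} (K : Type u) [Field K] [NumberField K] {ε : ℝ} (hε : 0 < ε) :
    ∃ A : ℝ, 0 < A ∧ ∀ (S : Finset (HeightOneSpectrum (𝓞 K))) (α : PL S → Fin 3 → ℂ)
      (β : S → Fin 8 → ℂ) (κ : Fin (8 * Module.finrank ℚ K) → ℂ) (Q : ℝ), AdjointGL3 α β κ Q →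
      ∃ (v : PL S) (k : ℕ), 1 ≤ k ∧ ((qq v.1 : ℝ)) ^ k ≤ A * (Q ^ 2 * ∏ j, (1 + ‖κ j‖)) ^ (1 + ε) ∧
        ‖∑ i, α v i ^ k‖ < 1 ∧ ∀ i, ‖α v i‖ = 1 := by
  have hW : 0 ≤ WK K := tsum_nonneg fun _ => (Real.exp_pos _).le
  obtain ⟨A, hA0, hA⟩ := negative_coefficient.{u} (8 * Module.finrank ℚ K) (M := Real.exp (18 * WK K))
    (Real.one_le_exp (by linarith)) hε
  refine ⟨A, hA0, fun S α β κ Q h => ?_⟩
  have := countable_primes K
  obtain ⟨F, Ξ, ω, hFd, hΞd, hω, hgr, hFe, hΞe, hfe⟩ := h.adjoint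
  obtain ⟨hs, hsM⟩ := sum_abs h
  have hFe' : ∀ s : ℂ, 5 / 2 ≤ s.re → F s = Complex.exp (DS (dA α β) (LA S) s) := fun s hs' =>
    F_eq h hFe hs'
  have hs' : ∀ s : ℂ, 5 / 2 ≤ s.re → Summable fun x => |dA α β x| * Real.exp (-(s.re * LA S x)) := by
    intro s hs1
    refine Summable.of_nonneg_of_le (fun x => by positivity) (fun x => ?_) hs
    refine mul_le_mul_of_nonneg_left (Real.exp_le_exp.2 ?_) (abs_nonneg _)
    have := LA_nonneg x
    nlinarith
  obtain ⟨l, hl1, hl2⟩ := hA (TT ((PL S × ℕ) ⊕ (S × ℕ))) (cc (dA α β)) (Lam (LA S)) κ Q F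
    ⟨h.one_le, h.conj, h.re, hFd, hgr, Ξ, ω, hω, hΞd, hΞe, hfe⟩ h.zero
    (fun l => Finset.sum_nonneg fun i _ => LA_nonneg _) (cc_abs hs).summable
    (by
      rw [(cc_abs hs).tsum_eq]
      exact Real.exp_le_exp.2 hsM)
    (fun s hs1 => by
      rw [hFe' s hs1]
      exact cc_sum (hs' s hs1))
    (fun s hs1 => by
      rw [hFe' s hs1.ge, Complex.norm_exp, one_div, ← Real.exp_neg]
      refine Real.exp_le_exp.2 ?_
      have h1 := DS_norm_le (d := dA α β) (L := LA S) (s := s) (hs' s hs1.ge)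
      rw [hs1] at h1
      have h2 := Complex.abs_re_le_norm (DS (dA α β) (LA S) s)
      have h3 := neg_abs_le (DS (dA α β) (LA S) s).re
      linarith)
  -- a negative coefficient
  have h1 : ∃ i, dA α β (l.2 i) < 0 := by
    by_contra hcon
    push Not at hcon
    have : 0 ≤ cc (dA α β) l :=
      div_nonneg (Finset.prod_nonneg fun i _ => hcon i) (Nat.cast_nonneg _)
    linarith
  obtain ⟨i, hi⟩ := h1
  have h2 : LA S (l.2 i) ≤ Lam (LA S) l :=
    Finset.single_le_sum (f := fun i => LA S (l.2 i)) (fun j _ => LA_nonneg _) (Finset.mem_univ i)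
  have h3 : Real.exp (LA S (l.2 i)) ≤ A * (Q ^ 2 * ∏ j, (1 + ‖κ j‖)) ^ (1 + ε) :=
    (Real.exp_le_exp.2 h2).trans hl2
  rcases hx : l.2 i with x | x
  · rw [hx] at hi h3
    have e1 : dA α β (Sum.inl x) = dd α x := rfl
    have e2 : LA S (Sum.inl x) = LL x := rfl
    rw [e1] at hi
    rw [e2, LL_of] at h3
    have hlt : ‖∑ i, α x.1 i ^ (x.2 + 1)‖ ^ 2 - 1 < 0 := by
      unfold dd at hi
      by_contra hcon
      push Not at hcon
      have : 0 ≤ (‖∑ i, α x.1 i ^ (x.2 + 1)‖ ^ 2 - 1) / ((x.2 : ℝ) + 1) := by positivity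
      linarith
    refine ⟨x.1, x.2 + 1, by omega, h3, ?_, ?_⟩
    · have h4 : ‖∑ i, α x.1 i ^ (x.2 + 1)‖ ^ 2 < 1 := by linarith
      nlinarith [norm_nonneg (∑ i, α x.1 i ^ (x.2 + 1))]
    · by_contra hnt
      have h4 := nontemp_pow (h.unitary x.1) hnt (x.2 + 1)
      linarith
  · exfalso
    rw [hx] at hi
    have e1 : dA α β (Sum.inr x) = dS β x := rfl
    rw [e1] at hi
    obtain ⟨r, hr0, hr⟩ := h.ramified_nonneg x.1 x.2
    unfold dS at hi
    rw [hr, Complex.ofReal_re] at hi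
    have : 0 ≤ r / ((x.2 : ℝ) + 1) := by positivity
    linarith

end Pool.Agent.TH949.LT
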