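import Mathlib
import Pool.Agent.TH942.SL.Line

/-! A nonnegative smoothing kernel and the contour shift. -/

set_option autoImplicit false

namespace Pool.Agent.TH949.LT

open Complex MeasureTheory Set Filter Topology

/-- the Gauss tail -/
noncomputable def VV (L : ℝ) : ℝ :=
  (1 / (2 * √Real.pi)) * ∫ u in Ioi (0 : ℝ), Real.exp (-(L - u) ^ 2 / 4)

theorem VV_nonneg (L : ℝ) : 0 ≤ VV L := by
  unfold VV
  have : 0 ≤ ∫ u in Ioi (0 : ℝ), Real.exp (-(L - u) ^ 2 / 4) :=
    integral_nonneg fun u => (Real.exp_pos _).le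
  positivity

theorem int_exp_Ioi {c : ℝ} (hc : 0 < c) : ∫ u in Ioi (0 : ℝ), Real.exp (-c * u) = 1 / c := by
  have := integral_exp_mul_Ioi (a := -c) (by linarith) 0
  rw [this]
  simp
  

theorem intg_exp_Ioi {c : ℝ} (hc : 0 < c) : IntegrableOn (fun u => Real.exp (-c * u)) (Ioi (0 : ℝ)) :=
  integrableOn_exp_mul_Ioi (by linarith) 0

theorem VV_le {c : ℝ} (hc : 0 < c) (L : ℝ) : VV L ≤ Real.exp (c ^ 2 + c * L) / c := by
  have h1 : ∫ u in Ioi (0 : ℝ), Real.exp (-(L - u) ^ 2 / 4) ≤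
      ∫ u in Ioi (0 : ℝ), Real.exp (c ^ 2 + c * L) * Real.exp (-c * u) := by
    refine integral_mono_of_nonneg (Eventually.of_forall fun u => (Real.exp_pos _).le)
      ((intg_exp_Ioi hc).const_mul _) (Eventually.of_forall fun u => ?_)
    simp only
    rw [← Real.exp_add]
    refine Real.exp_le_exp.2 ?_
    nlinarith [sq_nonneg ((L - u) / 2 + c)]
  rw [integral_const_mul, int_exp_Ioi hc] at h1
  have hpi : 1 ≤ √Real.pi := by
    rw [Real.one_le_sqrt]
    linarith [Real.pi_gt_three]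
  have h2 : 1 / (2 * √Real.pi) ≤ 1 := by
    rw [div_le_one (by positivity)]
    linarith
  have h3 : 0 ≤ ∫ u in Ioi (0 : ℝ), Real.exp (-(L - u) ^ 2 / 4) :=
    integral_nonneg fun u => (Real.exp_pos _).le
  unfold VV
  calc _ ≤ 1 * ∫ u in Ioi (0 : ℝ), Real.exp (-(L - u) ^ 2 / 4) :=
        mul_le_mul_of_nonneg_right h2 h3
    _ ≤ _ := by rw [one_mul]; refine h1.trans (le_of_eq ?_); ring

theorem VV_zero : VV 0 = 1 / 2 := by
  unfold VV
  have h1 : ∫ u in Ioi (0 : ℝ), Real.exp (-(0 - u) ^ 2 / 4) = √(Real.pi / (1 / 4)) / 2 := by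
    rw [← integral_gaussian_Ioi]
    congr 1
    ext u
    congr 1
    ring
  rw [h1]
  have h2 : √(Real.pi / (1 / 4)) = 2 * √Real.pi := by
    rw [show Real.pi / (1 / 4) = 2 ^ 2 * Real.pi by ring, Real.sqrt_mul (by positivity),
      Real.sqrt_sq (by norm_num)]
  rw [h2]
  have : √Real.pi ≠ 0 := (Real.sqrt_pos.2 Real.pi_pos).ne'
  field_simp

theorem inv_eq_int {w : ℂ} (hw : 0 < w.re) : 1 / w = ∫ u in Ioi (0 : ℝ), cexp (-w * u) := by
  rw [integral_exp_mul_complex_Ioi (by simpa using hw)]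
  simp

theorem gauss_line (c L : ℝ) : ∫ v : ℝ, cexp ((c + v * I) ^ 2 + (c + v * I) * L) =
    √Real.pi * Real.exp (-L ^ 2 / 4) := by
  have h1 := integral_cexp_quadratic (b := -1) (by simp) ((2 * c + L) * I) (c ^ 2 + c * L)
  have h2 : ∀ v : ℝ, cexp ((c + v * I) ^ 2 + (c + v * I) * L) =
      cexp (-1 * v ^ 2 + (2 * c + L) * I * v + (c ^ 2 + c * L)) := by
    intro v
    congr 1
    ring_nf
    rw [I_sq]
    ring
  simp_rw [h2]
  rw [h1]
  congr 1
  · rw [neg_neg, div_one, Real.sqrt_eq_rpow, Complex.ofReal_cpow Real.pi_pos.le]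
    simp
  · rw [Complex.ofReal_exp]
    congr 1
    push_cast
    ring_nf
    rw [I_sq]
    ring

theorem kernel {c : ℝ} (hc : 0 < c) (L : ℝ) :
    ∫ v : ℝ, cexp ((c + v * I) ^ 2 + (c + v * I) * L) / (c + v * I) = 2 * Real.pi * VV L := by
  have h1 : ∀ v : ℝ, cexp ((c + v * I) ^ 2 + (c + v * I) * L) / (c + v * I) =
      ∫ u in Ioi (0 : ℝ), cexp ((c + v * I) ^ 2 + (c + v * I) * (L - u : ℝ)) := by
    intro v
    rw [div_eq_mul_one_div, inv_eq_int (by simpa using hc), ← integral_const_mul]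
    congr 1
    ext u
    rw [← Complex.exp_add]
    congr 1
    push_cast
    ring
  simp_rw [h1]
  rw [integral_integral_swap]
  · have h2 : ∀ u : ℝ, ∫ v : ℝ, cexp ((c + v * I) ^ 2 + (c + v * I) * (L - u : ℝ)) =
        ((√Real.pi * Real.exp (-(L - u) ^ 2 / 4) : ℝ) : ℂ) := by
      intro u
      rw [gauss_line]
      push_cast
      rfl
    simp_rw [h2]
    rw [integral_complex_ofReal]
    unfold VV
    rw [integral_const_mul]
    push_cast
    have hp : ((√Real.pi : ℝ) : ℂ) ≠ 0 := by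
      exact_mod_cast (Real.sqrt_pos.2 Real.pi_pos).ne'
    have hp2 : (Real.pi : ℂ) = (√Real.pi : ℝ) * (√Real.pi : ℝ) := by
      rw [← Complex.ofReal_mul, Real.mul_self_sqrt Real.pi_pos.le]
    field_simp
    rw [hp2]
    ring
  · have h3 : Integrable (fun p : ℝ × ℝ => Real.exp (c ^ 2 + c * L) * (Real.exp (-1 * p.1 ^ 2) *
        Real.exp (-c * p.2))) (volume.prod (volume.restrict (Ioi 0))) :=
      ((integrable_exp_neg_mul_sq one_pos).mul_prod (intg_exp_Ioi hc)).const_mul _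
    refine h3.mono' ?_ (Eventually.of_forall fun p => ?_)
    · refine Continuous.aestronglyMeasurable ?_
      unfold Function.uncurry
      fun_prop
    · unfold Function.uncurry
      rw [Complex.norm_exp, ← Real.exp_add, ← Real.exp_add]
      refine Real.exp_le_exp.2 (le_of_eq ?_)
      simp [pow_two]
      ring

end Pool.Agent.TH949.LT
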