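import Pool.Agent.TH949.LT.Cross
import Pool.Agent.TH949.LT.Est

/-! Smoothed sums. -/

set_option autoImplicit false

namespace Pool.Agent.TH949.LT

open Filter Topology Complex MeasureTheory Set

/-- `exp (w²) / w` on a line -/
noncomputable def EE (a v : ℝ) : ℂ := cexp ((a + v * I) ^ 2) / (a + v * I)

theorem EE_int {a : ℝ} (ha : a ≠ 0) : Integrable (EE a) := E_int ha

variable {ι : Type*} {c Λ : ι → ℝ}

theorem term_norm (a : ℝ) (s : ℂ) (l : ℝ) :
    ‖(a : ℂ) * cexp (-(s * l))‖ = |a| * Real.exp (-(s.re * l)) := by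
  rw [norm_mul, Complex.norm_real, Real.norm_eq_abs, Complex.norm_exp]
  simp

theorem expand [Countable ι] {F : ℂ → ℂ}
    (hs : Summable fun l => |c l| * Real.exp (-(5 / 2 * Λ l)))
    (hF : ∀ s : ℂ, s.re = 5 / 2 → HasSum (fun l => (c l : ℂ) * cexp (-(s * Λ l))) (F s)) (y t : ℝ) :
    HasSum (fun l => 2 * Real.pi * ((c l : ℂ) * cexp (-((((-3 / 2 : ℝ) : ℂ) + t * I) * Λ l)) *
        VV (y - Λ l)))
      (∫ v : ℝ, F (((-3 / 2 : ℝ) : ℂ) + t * I + ((4 : ℝ) + v * I)) * cexp (((4 : ℝ) + v * I) * y) *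
        EE 4 v) := by
  set s0 : ℂ := ((-3 / 2 : ℝ) : ℂ) + t * I with hs0
  set G : ι → ℝ → ℂ := fun l v => ((c l : ℂ) * cexp (-((s0 + ((4 : ℝ) + v * I)) * Λ l))) *
    cexp (((4 : ℝ) + v * I) * y) * EE 4 v with hG
  have hre : ∀ v : ℝ, (s0 + ((4 : ℝ) + v * I)).re = 5 / 2 := by
    intro v
    simp [hs0]
    norm_num
  have hEc : Continuous (EE 4) := by
    unfold EE
    refine Continuous.div (by fun_prop) (by fun_prop) fun v h => ?_
    have := congrArg Complex.re h
    simp at this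
  have hGn : ∀ l v, ‖G l v‖ = |c l| * Real.exp (-(5 / 2 * Λ l)) * (Real.exp (4 * y) * ‖EE 4 v‖) := by
    intro l v
    rw [hG]
    simp only
    rw [norm_mul, norm_mul, term_norm, hre, Complex.norm_exp]
    have : ((((4 : ℝ) : ℂ) + v * I) * y).re = 4 * y := by simp
    rw [this]
    ring
  have hGi : ∀ l, Integrable (G l) := by
    intro l
    have h1 : Integrable fun v : ℝ =>
        |c l| * Real.exp (-(5 / 2 * Λ l)) * (Real.exp (4 * y) * ‖EE 4 v‖) :=
      ((EE_int (by norm_num)).norm.const_mul _).const_mul _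
    refine h1.mono' ?_ (Eventually.of_forall fun v => (hGn l v).le)
    refine Continuous.aestronglyMeasurable ?_
    rw [hG]
    exact (Continuous.mul (by fun_prop) (by fun_prop)).mul hEc
  have h2 : Summable fun l => ∫ v : ℝ, ‖G l v‖ := by
    have : ∀ l, ∫ v : ℝ, ‖G l v‖ =
        |c l| * Real.exp (-(5 / 2 * Λ l)) * ∫ v : ℝ, Real.exp (4 * y) * ‖EE 4 v‖ := by
      intro l
      rw [← integral_const_mul]
      congr 1
      ext v
      exact hGn l v
    simp_rw [this]
    exact hs.mul_right _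
  have h3 := hasSum_integral_of_summable_integral_norm hGi h2
  have h4 : ∀ v : ℝ, ∑' l, G l v = F (s0 + ((4 : ℝ) + v * I)) * cexp (((4 : ℝ) + v * I) * y) * EE 4 v := by
    intro v
    have h5 := ((hF (s0 + ((4 : ℝ) + v * I)) (hre v)).mul_right (cexp (((4 : ℝ) + v * I) * y))).mul_right
      (EE 4 v)
    exact h5.tsum_eq
  simp_rw [h4] at h3
  refine h3.congr_fun fun l => ?_
  have h6 := kernel (c := 4) (by norm_num) (y - Λ l)
  have h7 : ∀ v : ℝ, G l v = (c l : ℂ) * cexp (-(s0 * Λ l)) *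
      (cexp ((((4 : ℝ) : ℂ) + v * I) ^ 2 + ((4 : ℝ) + v * I) * (y - Λ l : ℝ)) / ((4 : ℝ) + v * I)) := by
    intro v
    rw [hG]
    simp only [EE]
    have e : cexp (-((s0 + ((4 : ℝ) + v * I)) * Λ l)) * cexp (((4 : ℝ) + v * I) * y) *
        cexp ((((4 : ℝ) : ℂ) + v * I) ^ 2) = cexp (-(s0 * Λ l)) *
        cexp ((((4 : ℝ) : ℂ) + v * I) ^ 2 + ((4 : ℝ) + v * I) * (y - Λ l : ℝ)) := by
      rw [← Complex.exp_add, ← Complex.exp_add, ← Complex.exp_add]
      congr 1
      push_cast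
      ring
    rw [mul_div_assoc', mul_div_assoc']
    congr 1
    linear_combination (c l : ℂ) * e
  simp_rw [h7]
  rw [integral_const_mul, h6]
  ring

/-- tail bound -/
theorem VV_shift {c0 : ℝ} (hc0 : 4 ≤ c0) {y T l : ℝ} (hl : T ≤ l) :
    Real.exp (4 * l) * VV (y - l) ≤ Real.exp (c0 ^ 2 + c0 * y - (c0 - 4) * T) := by
  have h1 := VV_le (c := c0) (by linarith) (y - l)
  have h2 : Real.exp (c0 ^ 2 + c0 * (y - l)) / c0 ≤ Real.exp (c0 ^ 2 + c0 * (y - l)) :=
    div_le_self (Real.exp_pos _).le (by linarith)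
  calc _ ≤ Real.exp (4 * l) * Real.exp (c0 ^ 2 + c0 * (y - l)) :=
        mul_le_mul_of_nonneg_left (h1.trans h2) (Real.exp_pos _).le
    _ = Real.exp (c0 ^ 2 + c0 * y - (c0 - 4) * l) := by
        rw [← Real.exp_add]
        congr 1
        ring
    _ ≤ _ := by
        refine Real.exp_le_exp.2 ?_
        nlinarith

/-- comparison of the smoothed sums at heights `t` and `0` -/
theorem compare (hΛ : ∀ l, 0 ≤ Λ l) {M : ℝ}
    (hs : Summable fun l => |c l| * Real.exp (-(5 / 2 * Λ l)))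
    (hM : ∑' l, |c l| * Real.exp (-(5 / 2 * Λ l)) ≤ M) {y T c0 : ℝ} (hc0 : 4 ≤ c0)
    (hpos : ∀ l, Λ l ≤ T → 0 ≤ c l) {t : ℝ} {St S0 : ℂ}
    (ht : HasSum (fun l => (c l : ℂ) * cexp (-((((-3 / 2 : ℝ) : ℂ) + t * I) * Λ l)) * VV (y - Λ l)) St)
    (h0 : HasSum (fun l => (c l : ℂ) * cexp (-((((-3 / 2 : ℝ) : ℂ) + (0 : ℝ) * I) * Λ l)) *
      VV (y - Λ l)) S0) :
    ‖St‖ ≤ ‖S0‖ + 2 * (M * Real.exp (c0 ^ 2 + c0 * y - (c0 - 4) * T)) := by
  set b : ℝ := Real.exp (c0 ^ 2 + c0 * y - (c0 - 4) * T) with hb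
  set u : ι → ℝ := fun l => |c l| * Real.exp (3 / 2 * Λ l) * VV (y - Λ l) with hu
  set u' : ι → ℝ := fun l => c l * Real.exp (3 / 2 * Λ l) * VV (y - Λ l) with hu'
  have hsplit : ∀ l, u l = |c l| * Real.exp (-(5 / 2 * Λ l)) * (Real.exp (4 * Λ l) * VV (y - Λ l)) := by
    intro l
    rw [hu]
    simp only
    have : Real.exp (3 / 2 * Λ l) = Real.exp (-(5 / 2 * Λ l)) * Real.exp (4 * Λ l) := by
      rw [← Real.exp_add]
      congr 1
      ring
    rw [this]
    ring
  have hun : ∀ l, 0 ≤ u l := fun l => by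
    have := VV_nonneg (y - Λ l)
    rw [hu]
    positivity
  have husum : Summable u := by
    refine Summable.of_nonneg_of_le hun (fun l => ?_)
      (hs.mul_right (Real.exp ((4 : ℝ) ^ 2 + 4 * y - (4 - 4) * 0)))
    rw [hsplit]
    exact mul_le_mul_of_nonneg_left (VV_shift le_rfl (hΛ l)) (by positivity)
  have hn : ∀ (x : ℝ) (l : ι), ‖(c l : ℂ) * cexp (-((((-3 / 2 : ℝ) : ℂ) + x * I) * Λ l)) *
      VV (y - Λ l)‖ = u l := by
    intro x l
    rw [norm_mul, term_norm, Complex.norm_real, Real.norm_of_nonneg (VV_nonneg _)]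
    have : -((((-3 / 2 : ℝ) : ℂ) + x * I).re * Λ l) = 3 / 2 * Λ l := by
      simp
      ring
    rw [this]
  have h1 : ‖St‖ ≤ ∑' l, u l := by
    rw [← ht.tsum_eq]
    exact tsum_of_norm_bounded husum.hasSum fun l => (hn t l).le
  have hu's : Summable u' := by
    refine Summable.of_norm_bounded husum fun l => ?_
    rw [hu', hu]
    simp only
    rw [norm_mul, norm_mul, Real.norm_eq_abs, Real.norm_of_nonneg (Real.exp_pos _).le,
      Real.norm_of_nonneg (VV_nonneg _)]
  have h2 : S0 = ((∑' l, u' l : ℝ) : ℂ) := by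
    rw [Complex.ofReal_tsum, ← h0.tsum_eq]
    refine tsum_congr fun l => ?_
    rw [hu']
    simp only
    push_cast
    congr 3
    ring
  have h3 : ∑' l, u l - ∑' l, u' l ≤ 2 * (M * b) := by
    rw [← husum.tsum_sub hu's]
    have h4 : ∀ l, u l - u' l ≤ 2 * (|c l| * Real.exp (-(5 / 2 * Λ l)) * b) := by
      intro l
      rcases le_or_gt (Λ l) T with hl | hl
      · have h5 : u l - u' l = 0 := by
          rw [hu, hu']
          simp only
          rw [abs_of_nonneg (hpos l hl), sub_self]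
        rw [h5]
        positivity
      · have h5 : u l - u' l ≤ 2 * u l := by
          have h6 : -u' l ≤ u l := by
            rw [hu, hu']
            simp only
            have h7 : 0 ≤ Real.exp (3 / 2 * Λ l) * VV (y - Λ l) :=
              mul_nonneg (Real.exp_pos _).le (VV_nonneg _)
            have h8 := neg_abs_le (c l)
            nlinarith
          linarith
        refine h5.trans (mul_le_mul_of_nonneg_left ?_ (by norm_num))
        rw [hsplit]
        exact mul_le_mul_of_nonneg_left (VV_shift hc0 hl.le) (by positivity)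
    have h9 : Summable fun l => 2 * (|c l| * Real.exp (-(5 / 2 * Λ l)) * b) :=
      (hs.mul_right b).mul_left 2
    calc _ ≤ ∑' l, 2 * (|c l| * Real.exp (-(5 / 2 * Λ l)) * b) :=
          (husum.sub hu's).tsum_le_tsum h4 h9
      _ = 2 * ((∑' l, |c l| * Real.exp (-(5 / 2 * Λ l))) * b) := by
          rw [tsum_mul_left, tsum_mul_right]
      _ ≤ _ := by
          refine mul_le_mul_of_nonneg_left (mul_le_mul_of_nonneg_right hM (Real.exp_pos _).le) (by norm_num)
  have h5 : ∑' l, u' l ≤ ‖S0‖ := by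
    rw [h2, Complex.norm_real, Real.norm_eq_abs]
    exact le_abs_self _
  linarith

end Pool.Agent.TH949.LT
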